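import Mathlib

/-!
Mazes on the square lattice, blind robots, and mazes whose origin component is a path.
-/

namespace Pool.Agent.BlindPath

/-- The vertices of the square lattice. -/
abbrev V := ℤ × ℤ

/-- The four instructions. -/
inductive Dir
  | E
  | N
  | W
  | S

/-- The unit vector of an instruction. -/
def Dir.vec : Dir → V
  | .E => (1, 0)
  | .N => (0, 1)
  | .W => (-1, 0)
  | .S => (0, -1)

/-- `M` is a board: every edge of `M` joins two nearest neighbours. -/
def Board (M : SimpleGraph V) : Prop := ∀ u v, M.Adj u v → ∃ c : Dir, v = u + c.vec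

open Classical in
/-- One step of the robot: it moves in the direction `c` if the board has this edge, otherwise it
stays. -/
noncomputable def step (M : SimpleGraph V) (v : V) (c : Dir) : V :=
  if M.Adj v (v + c.vec) then v + c.vec else v

/-- The position of the robot after the first `n` instructions of `A`. -/
noncomputable def pos (M : SimpleGraph V) (o : V) (A : ℕ → Dir) : ℕ → V
  | 0 => o
  | n + 1 => step M (pos M o A n) (A n)

/-- The algorithm `A` solves the maze `(M, o, d)`: the robot is at `d` at some time. -/
def Solves (A : ℕ → Dir) (M : SimpleGraph V) (o d : V) : Prop := ∃ n, pos M o A n = d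

/-- The component of `o` in `M` is the simple path `γ`: its vertices are indexed along the path,
without repetition, by the integer interval `I`, with `o` at `0`. -/
structure IsPath (M : SimpleGraph V) (o : V) (I : Set ℤ) (γ : ℤ → V) : Prop where
  interval : I.OrdConnected
  zero_mem : (0 : ℤ) ∈ I
  start : γ 0 = o
  inj : Set.InjOn γ I
  comp : ∀ v, M.Reachable o v ↔ ∃ i ∈ I, γ i = v
  adj : ∀ i ∈ I, ∀ j ∈ I, M.Adj (γ i) (γ j) ↔ (j = i + 1 ∨ i = j + 1)

/-- The index set of the path cut at the vertex number `t`: the vertices which can be reached from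
the vertex number `0` without passing the vertex number `t`, and `t` itself. -/
def upTo (I : Set ℤ) (t : ℤ) : Set ℤ := {i | i ∈ I ∧ (0 ≤ t → i ≤ t) ∧ (t ≤ 0 → t ≤ i)}

/-- The vector product of two vectors. -/
def cross (u v : V) : ℤ := u.1 * v.2 - u.2 * v.1

/-- The turn of the path at the vertex `γ i`: `1` for left, `-1` for right, `0` for straight on. -/
def turn (γ : ℤ → V) (i : ℤ) : ℤ := cross (γ i - γ (i - 1)) (γ (i + 1) - γ i)

/-- The part of the path with index set `J` makes, within distance `n` of the vertex number `0`,
at least `m` successive total turns, alternately to the left and to the right, each of at least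
`K` quarter turns. Here `x 0 ≤ x 1 ≤ ... ≤ x m` are numbers of edges, the edge number `k` joins
`γ k` and `γ (k + 1)`, and the total turn from the edge `a` to the edge `b` is the sum of the turns
at the vertices between them. -/
def Alternates (J : Set ℤ) (γ : ℤ → V) (n K m : ℕ) : Prop :=
  ∃ (s : ℤ) (x : ℕ → ℤ), (s = 1 ∨ s = -1) ∧
    (∀ i, i ≤ m → x i ∈ J ∧ x i + 1 ∈ J ∧ -(n : ℤ) ≤ x i ∧ x i + 1 ≤ n) ∧
    ∀ i, i < m → x i ≤ x (i + 1) ∧
      (K : ℤ) ≤ s * (-1) ^ i * ∑ j ∈ Finset.Ioc (x i) (x (i + 1)), turn γ j

end Pool.Agent.BlindPath
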