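import Pool.Agent.BlindPath.Ext

/-!
The algorithm for lattice paths with few large alternations.
-/

namespace Pool.Agent.BlindPath

/-- `Alt S A D m`: along a sequence of `m + 1` points of `S` the function `A` changes alternately
up and down by at least `D`. -/
def Alt (S : Set ℤ) (A : ℤ → ℤ) (D : ℤ) (m : ℕ) : Prop :=
  ∃ (s : ℤ) (f : ℕ → ℤ), (s = 1 ∨ s = -1) ∧ (∀ i, i ≤ m → f i ∈ S) ∧
    ∀ i, i < m → f i ≤ f (i + 1) ∧ D ≤ s * (-1) ^ i * (A (f (i + 1)) - A (f i))

lemma sgn_even {n : ℕ} (h : n % 2 = 0) : (-1 : ℤ) ^ n = 1 :=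
  Even.neg_one_pow (Nat.even_iff.2 h)

lemma sgn_odd {n : ℕ} (h : n % 2 = 1) : (-1 : ℤ) ^ n = -1 :=
  Odd.neg_one_pow (Nat.odd_iff.2 h)

/-- A chain as a sequence. -/
lemma ch_fun {A : ℤ → ℤ} {D : ℤ} {S : Set ℤ} {n : ℕ} {x : ℤ} (h : Ch A D S n x) :
    ∃ f : ℕ → ℤ, f n = x ∧ (∀ i, i ≤ n → f i ∈ S) ∧
      ∀ i, i < n → f i ≤ f (i + 1) ∧ D ≤ 1 * (-1) ^ i * (A (f (i + 1)) - A (f i)) := by
  induction h with
  | zero x hx => exact ⟨fun _ => x, rfl, fun _ _ => hx, fun i hi => by omega⟩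
  | up n x y hn _ hxy hy hA ih =>
    obtain ⟨f, h1, h2, h3⟩ := ih
    refine ⟨fun i => if i ≤ n then f i else y, by simp, fun i hi => ?_, fun i hi => ?_⟩
    · show (if i ≤ n then f i else y) ∈ S
      split_ifs with h
      · exact h2 i h
      · exact hy
    · show (if i ≤ n then f i else y) ≤ (if i + 1 ≤ n then f (i + 1) else y) ∧
        D ≤ 1 * (-1) ^ i * (A (if i + 1 ≤ n then f (i + 1) else y) - A (if i ≤ n then f i else y))
      rw [if_pos (by omega : i ≤ n)]
      split_ifs with h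
      · exact h3 i (by omega)
      · have : i = n := by omega
        subst this
        rw [h1, sgn_even hn]
        omega
  | down n x y hn _ hxy hy hA ih =>
    obtain ⟨f, h1, h2, h3⟩ := ih
    refine ⟨fun i => if i ≤ n then f i else y, by simp, fun i hi => ?_, fun i hi => ?_⟩
    · show (if i ≤ n then f i else y) ∈ S
      split_ifs with h
      · exact h2 i h
      · exact hy
    · show (if i ≤ n then f i else y) ≤ (if i + 1 ≤ n then f (i + 1) else y) ∧
        D ≤ 1 * (-1) ^ i * (A (if i + 1 ≤ n then f (i + 1) else y) - A (if i ≤ n then f i else y))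
      rw [if_pos (by omega : i ≤ n)]
      split_ifs with h
      · exact h3 i (by omega)
      · have : i = n := by omega
        subst this
        rw [h1, sgn_odd hn]
        omega

lemma Alt.mono {S S' : Set ℤ} {A : ℤ → ℤ} {D D' : ℤ} {m m' : ℕ} (h : Alt S A D m)
    (hS : S ⊆ S') (hD : D' ≤ D) (hm : m' ≤ m) : Alt S' A D' m' := by
  obtain ⟨s, f, h1, h2, h3⟩ := h
  refine ⟨s, f, h1, fun i hi => hS (h2 i (by omega)), fun i hi => ?_⟩
  obtain ⟨h4, h5⟩ := h3 i (by omega)
  exact ⟨h4, hD.trans h5⟩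

/-- Reversal of a path. -/
def rev (A : ℤ → ℤ) (x : ℤ) : ℤ := A (-x - 1) + 2

lemma Alt.rev {S : Set ℤ} {A : ℤ → ℤ} {D : ℤ} {m : ℕ}
    (h : Alt {x | -x - 1 ∈ S} (rev A) D m) : Alt S A D m := by
  obtain ⟨s, f, h1, h2, h3⟩ := h
  refine ⟨s * (-1) ^ m, fun i => -f (m - i) - 1, ?_, fun i hi => h2 (m - i) (by omega),
    fun i hi => ?_⟩
  · rcases Nat.mod_two_eq_zero_or_one m with h | h
    · rw [sgn_even h]
      rcases h1 with h1 | h1 <;> rw [h1] <;> norm_num
    · rw [sgn_odd h]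
      rcases h1 with h1 | h1 <;> rw [h1] <;> norm_num
  · obtain ⟨j, hj⟩ : ∃ j, m = i + 1 + j := ⟨m - (i + 1), by omega⟩
    obtain ⟨h4, h5⟩ := h3 j (by omega)
    have e1 : m - i = j + 1 := by omega
    have e2 : m - (i + 1) = j := by omega
    have e3 : (-1 : ℤ) ^ m * (-1) ^ i = -(-1) ^ j := by
      rw [hj, pow_add, pow_add]
      have h6 : (-1 : ℤ) ^ i * (-1) ^ i = 1 := by
        rw [← mul_pow]
        norm_num
      linear_combination (-(-1 : ℤ) ^ j) * h6
    show -f (m - i) - 1 ≤ -f (m - (i + 1)) - 1 ∧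
      D ≤ s * (-1) ^ m * (-1) ^ i * (A (-f (m - (i + 1)) - 1) - A (-f (m - i) - 1))
    rw [e1, e2]
    refine ⟨by omega, ?_⟩
    have e4 : s * (-1) ^ m * (-1) ^ i * (A (-f j - 1) - A (-f (j + 1) - 1)) =
        s * (-1) ^ j * (BlindPath.rev A (f (j + 1)) - BlindPath.rev A (f j)) := by
      unfold BlindPath.rev
      rw [mul_assoc s, e3]
      ring
    rw [e4]
    exact h5

/-- The edges within distance `n` of the vertex `0`. -/
def win (I : Set ℤ) (n : ℕ) : Set ℤ := {x | x ∈ edges I ∧ -(n : ℤ) ≤ x ∧ x + 1 ≤ n}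

/-- One stage, for targets in front of the robot. -/
lemma stage_fwd {D : ℤ} (hD : 1 ≤ D) {N Q : ℕ} {w : List ℤ}
    (hw : ∀ θ, Phys D N θ → ∀ p, Reach (pst θ) w p (p + Q)) {I : Set ℤ} (hI : I.OrdConnected)
    {θ : ℤ → ℤ} (hadj : ∀ k, k ∈ I → k + 1 ∈ I → k + 2 ∈ I → |θ (k + 1) - θ k| ≤ 1)
    {x t : ℤ} (hx : x ∈ I) (ht : t ∈ I) (hxt : x < t) (hQ : t - x ≤ Q) {n : ℕ}
    (hn1 : -(n : ℤ) ≤ x - w.length) (hn2 : t ≤ n) (hosc : ¬ Alt (win I n) θ D N) :
    ∃ u, u <+: w ∧ run (tst I θ) u x = t := by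
  have hxE : x ∈ edges I := ⟨hx, hI.out hx ht (Set.mem_Icc.2 ⟨by omega, by omega⟩)⟩
  have hxS : x ∈ win I n := ⟨hxE, by omega, by omega⟩
  obtain ⟨a, ha1, ha2⟩ := Int.exists_least_of_bdd (P := fun z => z ∈ win I n)
    ⟨-n, fun z hz => hz.2.1⟩ ⟨x, hxS⟩
  obtain ⟨b, hb1, hb2⟩ := Int.exists_greatest_of_bdd (P := fun z => z ∈ win I n)
    ⟨n, fun z hz => by have := hz.2.2; omega⟩ ⟨x, hxS⟩
  have hab : a ≤ b := ha2 b hb1
  have hsub : Set.Icc a b ⊆ win I n := by
    intro z hz
    rw [Set.mem_Icc] at hz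
    exact ⟨⟨hI.out ha1.1.1 hb1.1.1 hz, hI.out ha1.1.2 hb1.1.2
      (Set.mem_Icc.2 ⟨by omega, by omega⟩)⟩, by have := ha1.2.1; omega,
      by have := hb1.2.2; omega⟩
  have hphys : Phys D N (ext θ a b) := by
    apply ext_phys hab _ hD
    · intro z hz
      obtain ⟨f, h1, h2, h3⟩ := ch_fun hz
      exact hosc ⟨1, f, Or.inl rfl, fun i hi => hsub (h2 i hi), h3⟩
    · intro k hk hk'
      have h1 := hsub (Set.mem_Icc.2 ⟨hk, hk'.le⟩)
      have h2 := hsub (Set.mem_Icc.2 ⟨(by omega : a ≤ k + 1), (by omega : k + 1 ≤ b)⟩)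
      have h3 := h2.1.2
      rw [add_assoc] at h3
      exact hadj k h1.1.1 h1.1.2 h3
  refine reach_tst hI ht w x x hx le_rfl hxt.le ?_ ((hw _ hphys x).mono (by omega))
  intro z hz hz1 hz2
  have hzS : z ∈ win I n := ⟨hz, by omega, by omega⟩
  exact ext_eq (ha2 z hzS) (hb2 z hzS)

lemma tst_rev {I : Set ℤ} {θ : ℤ → ℤ}
    (hadj : ∀ k, k ∈ I → k + 1 ∈ I → k + 2 ∈ I → |θ (k + 1) - θ k| ≤ 1) (c x : ℤ) :
    tst {k | -k ∈ I} (rev θ) c (-x) = -tst I θ c x := by
  have hmem : ∀ y z : ℤ, z = -y - 1 → (y ∈ edges {k | -k ∈ I} ↔ z ∈ edges I) := by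
    intro y z hz
    unfold edges
    simp only [Set.mem_ofPred_eq]
    rw [show -(y + 1) = z by omega, show z + 1 = -y by omega]
    exact and_comm
  have h1 := hmem (-x) (x - 1) (by ring)
  have h2 := hmem (-x - 1) x (by ring)
  have h3 : rev θ (-x) = θ (x - 1) + 2 := by
    unfold rev
    congr 2
    ring
  have h4 : rev θ (-x - 1) = θ x + 2 := by
    unfold rev
    congr 2
    ring
  unfold tst
  rw [h1, h2, h3, h4]
  by_cases c1 : x - 1 ∈ edges I ∧ (θ (x - 1) + 2 - c) % 4 = 0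
  · rw [if_pos c1]
    by_cases c2 : x ∈ edges I ∧ (θ x - c) % 4 = 0
    · exfalso
      have h5 := hadj (x - 1) c1.1.1 (by rw [sub_add_cancel]; exact c2.1.1)
        (by rw [show x - 1 + 2 = x + 1 by ring]; exact c2.1.2)
      rw [sub_add_cancel, abs_le] at h5
      have := c1.2
      have := c2.2
      omega
    · rw [if_neg c2, if_pos ⟨c1.1, by have := c1.2; omega⟩]
      ring
  · rw [if_neg c1]
    by_cases c2 : x ∈ edges I ∧ (θ x - c) % 4 = 0
    · rw [if_pos ⟨c2.1, by have := c2.2; omega⟩, if_pos c2]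
      ring
    · rw [if_neg (fun h => c2 ⟨h.1, by have := h.2; omega⟩), if_neg c2,
        if_neg (fun h => c1 ⟨h.1, by have := h.2; omega⟩)]

lemma run_rev {I : Set ℤ} {θ : ℤ → ℤ}
    (hadj : ∀ k, k ∈ I → k + 1 ∈ I → k + 2 ∈ I → |θ (k + 1) - θ k| ≤ 1) (w : List ℤ) :
    ∀ x : ℤ, run (tst {k | -k ∈ I} (rev θ)) w (-x) = -run (tst I θ) w x := by
  induction w with
  | nil => intro x; rfl
  | cons c w ih =>
    intro x
    show run (tst {k | -k ∈ I} (rev θ)) w (tst {k | -k ∈ I} (rev θ) c (-x)) =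
      -run (tst I θ) w (tst I θ c x)
    rw [tst_rev hadj, ih]

lemma ordConnected_rev {I : Set ℤ} (hI : I.OrdConnected) :
    ({k | -k ∈ I} : Set ℤ).OrdConnected := by
  refine ⟨fun x hx y hy z hz => ?_⟩
  rw [Set.mem_Icc] at hz
  exact hI.out hy hx (Set.mem_Icc.2 ⟨by omega, by omega⟩)

/-- One stage. -/
theorem stage {D : ℤ} (hD : 1 ≤ D) {N Q : ℕ} {w : List ℤ}
    (hw : ∀ θ, Phys D N θ → ∀ p, Reach (pst θ) w p (p + Q)) {I : Set ℤ} (hI : I.OrdConnected)
    {θ : ℤ → ℤ} (hadj : ∀ k, k ∈ I → k + 1 ∈ I → k + 2 ∈ I → |θ (k + 1) - θ k| ≤ 1)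
    {x t : ℤ} (hx : x ∈ I) (ht : t ∈ I) (hQ : |t - x| ≤ Q) {n : ℕ}
    (hn1 : |x| + w.length ≤ n) (hn2 : |t| ≤ n) (hosc : ¬ Alt (win I n) θ D N) :
    ∃ u, u <+: w ∧ run (tst I θ) u x = t := by
  rw [abs_le] at hQ hn2
  have hx1 := le_abs_self x
  have hx2 := neg_abs_le x
  rcases lt_trichotomy x t with h | h | h
  · exact stage_fwd hD hw hI hadj hx ht h hQ.2 (by omega) hn2.2 hosc
  · exact ⟨[], List.nil_prefix, h⟩
  · have hosc' : ¬ Alt (win {k | -k ∈ I} n) (rev θ) D N := by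
      intro h1
      apply hosc
      apply Alt.rev
      refine h1.mono ?_ le_rfl le_rfl
      rintro z ⟨⟨z1, z2⟩, z3, z4⟩
      simp only [Set.mem_ofPred_eq] at z1 z2
      refine ⟨⟨?_, ?_⟩, by omega, by omega⟩
      · rw [show -z - 1 = -(z + 1) by ring]
        exact z2
      · rw [show -z - 1 + 1 = -z by ring]
        exact z1
    have hadj' : ∀ k, k ∈ {k | -k ∈ I} → k + 1 ∈ {k | -k ∈ I} → k + 2 ∈ {k | -k ∈ I} →
        |rev θ (k + 1) - rev θ k| ≤ 1 := by
      intro k h1 h2 h3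
      simp only [Set.mem_ofPred_eq] at h1 h2 h3
      have h4 := hadj (-(k + 2)) h3 (by rw [show -(k + 2) + 1 = -(k + 1) by ring]; exact h2)
        (by rw [show -(k + 2) + 2 = -k by ring]; exact h1)
      unfold rev
      rw [show -(k + 1) - 1 = -(k + 2) by ring, show -k - 1 = -(k + 2) + 1 by ring]
      rw [abs_le] at h4 ⊢
      omega
    obtain ⟨u, hu1, hu2⟩ := stage_fwd hD hw (ordConnected_rev hI) hadj' (x := -x) (t := -t)
      (by simpa using hx) (by simpa using ht) (by omega) (by omega) (n := n) (by omega)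
      (by omega) hosc'
    refine ⟨u, hu1, ?_⟩
    rw [run_rev hadj] at hu2
    omega

/-! ### The algorithm -/

/-- The first `n` letters of the sequence `a`. -/
def word (a : ℕ → ℤ) (n : ℕ) : List ℤ := (List.range n).map a

lemma word_succ (a : ℕ → ℤ) (n : ℕ) : word a (n + 1) = word a n ++ [a n] := by
  unfold word
  rw [List.range_succ, List.map_append]
  rfl

lemma word_length (a : ℕ → ℤ) (n : ℕ) : (word a n).length = n := by
  simp [word]

/-- A growing sequence of words defines an infinite sequence of letters. -/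
lemma exists_seq (P : ℕ → List ℤ) (hP : ∀ k, P k <+: P (k + 1))
    (hl : ∀ k, k ≤ (P k).length) : ∃ a : ℕ → ℤ, ∀ k u, u <+: P k → u = word a u.length := by
  have hmono : ∀ k j, P k <+: P (k + j) := by
    intro k j
    induction j with
    | zero => exact List.prefix_refl _
    | succ j ih => exact ih.trans (hP _)
  have hget : ∀ k n, n < (P k).length → (P k).getD n 0 = (P (n + 1)).getD n 0 := by
    intro k n hn
    rcases le_total k (n + 1) with h | h
    · obtain ⟨j, hj⟩ := Nat.exists_eq_add_of_le h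
      obtain ⟨r, hr⟩ := hmono k j
      rw [← hj] at hr
      rw [← hr, List.getD_append _ _ _ _ hn]
    · obtain ⟨j, hj⟩ := Nat.exists_eq_add_of_le h
      obtain ⟨r, hr⟩ := hmono (n + 1) j
      rw [← hj] at hr
      have := hl (n + 1)
      rw [← hr, List.getD_append _ _ _ _ (by omega)]
  refine ⟨fun n => (P (n + 1)).getD n 0, fun k u hu => ?_⟩
  apply List.ext_getElem
  · rw [word_length]
  · intro n h1 h2
    obtain ⟨r, hr⟩ := hu
    have h3 : n < (P k).length := by
      rw [← hr, List.length_append]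
      omega
    have h4 := hget k n h3
    have h5 : (P k).getD n 0 = u[n] := by
      rw [← hr, List.getD_append _ _ _ _ h1, List.getD_eq_getElem _ _ h1]
    rw [← h5, h4]
    simp [word]

theorem line_solve : ∃ (a : ℕ → ℤ) (φ : ℕ → ℕ), Monotone φ ∧ Filter.Tendsto φ Filter.atTop
    Filter.atTop ∧ ∀ (I : Set ℤ) (θ : ℤ → ℤ), I.OrdConnected → (0 : ℤ) ∈ I →
      (∀ k, k ∈ I → k + 1 ∈ I → k + 2 ∈ I → |θ (k + 1) - θ k| ≤ 1) →
      (∃ᶠ n in Filter.atTop, ¬ Alt (win I n) θ (φ n) (φ n)) →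
      ∀ t ∈ I, ∃ n, run (tst I θ) (word a n) 0 = t := by
  choose W hW using fun k Q : ℕ => pmover k k Q
  let P : ℕ → List ℤ := fun k => Nat.rec [] (fun k p => p ++ (W k (p.length + k) ++ [0])) k
  have hP0 : P 0 = [] := rfl
  have hPs : ∀ k, P (k + 1) = P k ++ (W k ((P k).length + k) ++ [0]) := fun k => rfl
  have hpre : ∀ k, P k <+: P (k + 1) := fun k => by
    rw [hPs]
    exact List.prefix_append _ _
  have hlen : ∀ k, (P k).length + 1 ≤ (P (k + 1)).length := by
    intro k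
    rw [hPs]
    simp only [List.length_append, List.length_singleton]
    omega
  have hl : ∀ k, k ≤ (P k).length := by
    intro k
    induction k with
    | zero => exact Nat.zero_le _
    | succ k ih =>
      have := hlen k
      omega
  have hlm : Monotone fun k => (P k).length := monotone_nat_of_le_succ fun k => by
    have := hlen k
    omega
  obtain ⟨a, ha⟩ := exists_seq P hpre hl
  let φ : ℕ → ℕ := fun n => Nat.findGreatest (fun k => (P (k + 1)).length + k ≤ n) n
  have hφle : ∀ n k, k ≤ n → (P (k + 1)).length + k ≤ n → k ≤ φ n :=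
    fun n k h1 h2 => Nat.le_findGreatest h1 h2
  have hmono : Monotone φ := by
    intro n n' hnn
    rcases Nat.eq_zero_or_pos (φ n) with h | h
    · omega
    · have h1 : (P (φ n + 1)).length + φ n ≤ n :=
        Nat.findGreatest_of_ne_zero (P := fun k => (P (k + 1)).length + k ≤ n) rfl (by
          show φ n ≠ 0
          omega)
      exact hφle n' (φ n) (by omega) (by omega)
  refine ⟨a, φ, hmono, ?_, ?_⟩
  · rw [Filter.tendsto_atTop_atTop]
    intro k
    refine ⟨(P (k + 1)).length + k, fun n hn => hφle n k (by omega) hn⟩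
  intro I θ hI h0 hadj hfreq t ht
  obtain ⟨n, hn, hosc⟩ := (Filter.frequently_atTop.1 hfreq)
    ((P (t.natAbs + 1)).length + t.natAbs + (P 1).length + 1)
  have hk : t.natAbs ≤ φ n := hφle n _ (by omega) (by omega)
  have hspec : (P (φ n + 1)).length + φ n ≤ n :=
    Nat.findGreatest_spec (P := fun k => (P (k + 1)).length + k ≤ n) (Nat.zero_le n)
      (by show (P 1).length + 0 ≤ n; omega)
  generalize φ n = k at hk hspec hosc
  have hx0 : ∀ w : List ℤ, run (tst I θ) w 0 ∈ I := by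
    intro w
    have : ∀ x ∈ I, run (tst I θ) w x ∈ I := by
      induction w with
      | nil => intro x hx; exact hx
      | cons c w ih => intro x hx; exact ih _ (tst_mem hx)
    exact this 0 h0
  have hxl : ∀ w : List ℤ, |run (tst I θ) w 0| ≤ w.length := by
    intro w
    have h1 : ∀ x, run (tst I θ) w x ≤ x + w.length := by
      induction w with
      | nil => intro x; show x ≤ x + _; simp
      | cons c w ih =>
        intro x
        have h2 := ih (tst I θ c x)
        have h3 := tst_le I θ c x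
        show run (tst I θ) w (tst I θ c x) ≤ _
        push_cast [List.length_cons]
        omega
    have h4 := run_ge (tst_low I θ) w 0
    have h5 := h1 0
    rw [abs_le]
    omega
  have hlenk : (P (k + 1)).length = (P k).length + ((W k ((P k).length + k)).length + 1) := by
    rw [hPs]
    simp
  have hPk := hxl (P k)
  have hin := hx0 (P k)
  have htabs : |t| = (t.natAbs : ℤ) := Int.abs_eq_natAbs t
  obtain ⟨u, hu1, hu2⟩ := stage (D := 2 * ((k : ℤ) + 1)) (by omega) (N := k)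
    (Q := (P k).length + k) (w := W k ((P k).length + k))
    (hW k ((P k).length + k)) hI hadj (x := run (tst I θ) (P k) 0) (t := t) hin ht
    (by
      push_cast
      rw [abs_le] at hPk ⊢
      omega) (n := n) (by omega) (by omega)
    (fun h => hosc (h.mono (fun z hz => hz) (by omega) le_rfl))
  have h6 : P k ++ u <+: P (k + 1) := by
    rw [hPs]
    exact (List.prefix_append_right_inj (P k)).2 (hu1.trans (List.prefix_append _ _))
  refine ⟨(P k ++ u).length, ?_⟩
  rw [← ha (k + 1) _ h6, run_append]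
  exact hu2

end Pool.Agent.BlindPath
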