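import Pool.Agent.BlindPath.Univ

/-!
Label sequences with few large oscillations: smoothing and the mover.
-/

namespace Pool.Agent.BlindPath

/-- `Ch A d S n x`: there are `x_0 ≤ ... ≤ x_n = x` in `S` such that `A` rises by at least `d`
from `x_0` to `x_1`, falls by at least `d` from `x_1` to `x_2`, and so on alternately. -/
inductive Ch (A : ℤ → ℤ) (d : ℤ) (S : Set ℤ) : ℕ → ℤ → Prop
  | zero (x : ℤ) : x ∈ S → Ch A d S 0 x
  | up (n : ℕ) (x y : ℤ) : n % 2 = 0 → Ch A d S n x → x ≤ y → y ∈ S → A x + d ≤ A y →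
      Ch A d S (n + 1) y
  | down (n : ℕ) (x y : ℤ) : n % 2 = 1 → Ch A d S n x → x ≤ y → y ∈ S → A y + d ≤ A x →
      Ch A d S (n + 1) y

/-- The label sequences with at most `N` alternating changes of size `d`, with the parity
condition for the positions of changes, tending upward on both sides. -/
structure Env (d : ℤ) (N : ℕ) (τ : ℤ) (A : ℤ → ℤ) : Prop where
  adj : ∀ k, |A (k + 1) - A k| ≤ 1
  tie : ∀ k, A (k + 1) ≠ A k → (k - min (A k) (A (k + 1)) - τ) % 2 = 0
  osc : ∀ x, ¬ Ch A d Set.univ (N + 1) x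
  ur : ∀ n a, ∃ k, n < k ∧ a ≤ A k
  ul : ∀ n a, ∃ k, k < n ∧ a ≤ A k

/-- The facts on the derived sequence which the expansion of words uses. -/
structure Der (τ : ℤ) (A e B : ℤ → ℤ) : Prop where
  mono : StrictMono e
  typ : ∀ j, (A (e j) - j) % 2 = 0
  const : ∀ j k, e j < k → k ≤ e (j + 1) → A k = A (e (j + 1))
  tie : ∀ j, (e j - B j - τ) % 2 = 0

/-- One push. -/
lemma push_step {τ : ℤ} {A e B : ℤ → ℤ} (h : Der τ A e B) {c x K J G : ℤ} {T : ℕ}
    (hK : (K - c - τ - 1) % 2 = 0) (hJ : (J - x) % 2 = 0) (hJK : e J ≤ K)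
    (hG : G - K ≤ T) :
    G ≤ run (cst A) (List.replicate T (x + 1)) K ∨
      e (cst B c J) ≤ run (cst A) (List.replicate T (x + 1)) K := by
  unfold cst
  split_ifs with hc
  · have h1 := h.tie J
    have hne : e J ≠ K := by
      intro he
      rw [← he] at hK
      omega
    have hb : (A (e (J + 1)) - (x + 1)) % 2 = 0 := by
      have := h.typ (J + 1)
      omega
    have h2 := run_rep_forward (A := A) (b := e (J + 1)) (y := x + 1) T (x := K)
      (fun k hk hk' => by
        rw [h.const J k (by omega) hk']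
        exact hb) hb
    have h3 : min (e (J + 1)) (K + T) ≤ e (J + 1) := min_le_left _ _
    rcases le_total (e (J + 1)) (K + T) with h4 | h4
    · right
      rw [min_eq_left h4] at h2
      exact h2
    · left
      rw [min_eq_right h4] at h2
      have : G ≤ K + T := by omega
      exact this.trans h2
  · right
    apply run_rep_barrier
    · have := h.typ (J - 1)
      omega
    · exact (h.mono (by omega : J - 1 < J)).le.trans hJK

lemma cexp_reach {τ : ℤ} {A e B : ℤ → ℤ} (h : Der τ A e B) (J' G : ℤ) (cs : List ℤ) :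
    ∀ (x π K J : ℤ) (T : ℕ), (K - π) % 2 = 0 → (J - x) % 2 = 0 → e J ≤ K → G - K ≤ T →
      Reach (cst B) cs J J' → Reach (cst A) (cexp τ cs x π T) K (min (e J') G) := by
  induction cs with
  | nil =>
    intro x π K J T _ _ hJK _ hr
    obtain ⟨u, hu, hu2⟩ := hr
    rw [List.prefix_nil] at hu
    subst hu
    apply Reach.zero
    exact (min_le_left _ _).trans ((h.mono.monotone (by simpa using hu2)).trans hJK)
  | cons c cs ih =>
    intro x π K J T hπ hJ hJK hG hr
    rcases reach_cons hr with hr | hr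
    · apply Reach.zero
      exact (min_le_left _ _).trans ((h.mono.monotone hr).trans hJK)
    have hJ' : (cst B c J - (x + 1)) % 2 = 0 := by
      have := cst_parity B c J
      omega
    unfold cexp
    split_ifs with hp
    · rcases push_step h (c := c) (K := K) (by omega) hJ hJK hG with h1 | h1
      · apply Reach.left
        exact Reach.full ((min_le_right _ _).trans h1)
      · apply Reach.right
        have h2 := run_parity A (List.replicate T (x + 1)) K
        have h3 := run_ge (cst_low A) (List.replicate T (x + 1)) K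
        simp only [List.length_replicate] at h2 h3
        apply ih (x + 1) (π + T) _ (cst B c J) (T + T) (by omega) hJ' h1
          (by push_cast; omega) hr
    · apply Reach.right
      have h0 : run (cst A) [x] K = cst A x K := rfl
      rw [h0]
      have hp0 := cst_parity A x K
      have hl0 := cst_low A x K
      have hb0 : e J ≤ cst A x K := cst_barrier (by have := h.typ J; omega) hJK
      rcases push_step h (c := c) (K := cst A x K) (G := G) (T := T + 1) (by omega) hJ hb0
        (by push_cast; omega) with h1 | h1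
      · apply Reach.left
        exact Reach.full ((min_le_right _ _).trans h1)
      · apply Reach.right
        have h2 := run_parity A (List.replicate (T + 1) (x + 1)) (cst A x K)
        have h3 := run_ge (cst_low A) (List.replicate (T + 1) (x + 1)) (cst A x K)
        simp only [List.length_replicate] at h2 h3
        push_cast at h2 h3
        apply ih (x + 1) (π + 1 + (T + 1)) _ (cst B c J) (T + 1 + (T + 1)) (by omega) hJ' h1
          (by push_cast; omega) hr

/-- A mover for the derived sequences gives a mover. -/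
lemma mover_lift {τ : ℤ} {A e B : ℤ → ℤ} (h : Der τ A e B) {ρ : ℤ} {Q : ℕ} {w' : List ℤ}
    (hw : ∀ J, (J - 0) % 2 = 0 → Reach (cst B) w' J (J + ((Q + 2 : ℕ) : ℤ))) {K : ℤ}
    (hK : (K - ρ) % 2 = 0) : Reach (cst A) (cexp τ w' 0 ρ Q) K (K + Q) := by
  obtain ⟨J, hJ0, hJ1, hJ2⟩ := exists_floor_even h.mono K
  have h1 := hw J (by omega)
  have h2 := cexp_reach h (J + ((Q + 2 : ℕ) : ℤ)) (K + Q) w' 0 ρ K J Q hK (by omega) hJ1
    (by omega) h1
  apply h2.mono
  apply le_min _ le_rfl
  have h3 := strictMono_add h.mono (J + 2) Q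
  have h4 : J + ((Q + 2 : ℕ) : ℤ) = J + 2 + Q := by push_cast; ring
  rw [h4]
  omega

/-! ### The derived sequence -/

/-- Positions of the changes of `A`. -/
def Chg (A : ℤ → ℤ) : Set ℤ := {k | A (k + 1) ≠ A k}

lemma mem_chg {A : ℤ → ℤ} {k : ℤ} : k ∈ Chg A ↔ A (k + 1) ≠ A k := Iff.rfl

variable {τ : ℤ} {A : ℤ → ℤ}

/-- The enumeration of the changes. -/
structure Enu (A e : ℤ → ℤ) : Prop where
  mono : StrictMono e
  next : ∀ j, A (e (j + 1)) = A (e j + 1)
  chg : ∀ j, A (e j + 1) ≠ A (e j)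
  adj : ∀ j, |A (e j + 1) - A (e j)| ≤ 1
  typ : ∀ j, (A (e j) - j) % 2 = 0
  const : ∀ j k, e j < k → k ≤ e (j + 1) → A k = A (e (j + 1))
  tie : ∀ j, (e j - min (A (e j)) (A (e j + 1)) - τ) % 2 = 0
  ur : ∀ n a, ∃ j, n < j ∧ a ≤ min (A (e j)) (A (e j + 1))
  ul : ∀ n a, ∃ j, j < n ∧ a ≤ min (A (e j)) (A (e j + 1))

theorem exists_enu (hadj : ∀ k, |A (k + 1) - A k| ≤ 1)
    (htie : ∀ k, A (k + 1) ≠ A k → (k - min (A k) (A (k + 1)) - τ) % 2 = 0)
    (hur : ∀ n a, ∃ k, n < k ∧ a ≤ A k) (hul : ∀ n a, ∃ k, k < n ∧ a ≤ A k) :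
    ∃ e, Enu (τ := τ) A e := by
  have UR : ∀ n a, ∃ t, n < t ∧ A (t + 1) ≠ A t ∧ a ≤ min (A t) (A (t + 1)) := by
    intro n a
    obtain ⟨k', h1, h2⟩ := hur (n + 1) (max a (A (n + 1)) + 1)
    obtain ⟨t, h3, h4, h5, h6⟩ := first_change (P := fun s => A s ≤ max a (A (n + 1)))
      (k := n + 1) (k' := k') (le_max_right _ _) (by omega) h1.le
    have h7 := h5 t h3 le_rfl
    have h8 := hadj t
    rw [abs_le] at h8
    exact ⟨t, by omega, by omega, by omega⟩
  have UL : ∀ n a, ∃ t, t < n ∧ A (t + 1) ≠ A t ∧ a ≤ min (A t) (A (t + 1)) := by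
    intro n a
    obtain ⟨k', h1, h2⟩ := hul n (max a (A n) + 1)
    obtain ⟨t, h3, h4, h5, h6⟩ := first_change (P := fun s => max a (A n) + 1 ≤ A s)
      (k := k') (k' := n) h2 (by omega) h1.le
    have h7 := h5 t h3 le_rfl
    have h8 := hadj t
    rw [abs_le] at h8
    exact ⟨t, by omega, by omega, by omega⟩
  obtain ⟨e0, he0, hS0⟩ := exists_enum (Chg A)
    (fun n => by obtain ⟨t, h1, h2, h3⟩ := UR n 0; exact ⟨t, h2, h1⟩)
    (fun n => by obtain ⟨t, h1, h2, h3⟩ := UL n 0; exact ⟨t, h2, h1⟩)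
  have cons : ∀ e : ℤ → ℤ, StrictMono e → (∀ s, s ∈ Chg A ↔ ∃ j, e j = s) →
      ∀ j k, e j < k → k ≤ e (j + 1) → A k = A (e j + 1) := by
    intro e he hS j k hk hk'
    refine int_up (P := fun k => A k = A (e j + 1)) (b := e (j + 1)) rfl ?_
      (by omega : e j + 1 ≤ k) hk'
    intro k h1 h2 h3
    by_contra hne
    have : k ∈ Chg A := by
      rw [mem_chg]
      intro h4
      exact hne (h4.trans h3)
    obtain ⟨i, hi⟩ := (hS k).1 this
    have h4 : j < i := he.lt_iff_lt.1 (by omega)
    have h5 : i < j + 1 := he.lt_iff_lt.1 (by omega)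
    omega
  -- normalise the parity
  obtain ⟨e, he, hS, hpar⟩ : ∃ e : ℤ → ℤ, StrictMono e ∧ (∀ s, s ∈ Chg A ↔ ∃ j, e j = s) ∧
      A (e 0) % 2 = 0 := by
    rcases Int.emod_two_eq_zero_or_one (A (e0 0)) with hp | hp
    · exact ⟨e0, he0, hS0, hp⟩
    · refine ⟨fun j => e0 (j + 1), fun a b hab => he0 (by omega), fun s => ?_, ?_⟩
      · rw [hS0]
        constructor
        · rintro ⟨j, hj⟩
          exact ⟨j - 1, by simpa using hj⟩
        · rintro ⟨j, hj⟩
          exact ⟨j + 1, hj⟩
      · have h1 := cons e0 he0 hS0 0 (e0 (0 + 1)) (he0 (by omega)) le_rfl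
        have h2 : e0 0 ∈ Chg A := (hS0 _).2 ⟨0, rfl⟩
        have h3 := hadj (e0 0)
        rw [abs_le] at h3
        rw [mem_chg] at h2
        show A (e0 (0 + 1)) % 2 = 0
        omega
  have hconst := cons e he hS
  have hnext : ∀ j, A (e (j + 1)) = A (e j + 1) := fun j =>
    hconst j _ (he (by omega)) le_rfl
  have hchg : ∀ j, A (e j + 1) ≠ A (e j) := fun j => (hS (e j)).2 ⟨j, rfl⟩
  have hadj' : ∀ j, |A (e j + 1) - A (e j)| ≤ 1 := fun j => hadj _
  have htyp : ∀ j, (A (e j) - j) % 2 = 0 := by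
    intro j
    induction j using Int.induction_on with
    | zero => simpa using hpar
    | succ i ih =>
      have h1 := hnext i
      have h2 := hchg i
      have h3 := hadj' i
      rw [abs_le] at h3
      omega
    | pred i ih =>
      have h1 := hnext (-(i : ℤ) - 1)
      have h2 := hchg (-(i : ℤ) - 1)
      have h3 := hadj' (-(i : ℤ) - 1)
      rw [abs_le] at h3
      have h4 : -(i : ℤ) - 1 + 1 = -i := by ring
      rw [h4] at h1
      omega
  refine ⟨e, ⟨he, hnext, hchg, hadj', htyp, ?_, ?_, ?_, ?_⟩⟩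
  · intro j k h1 h2
    rw [hconst j k h1 h2, hnext]
  · intro j
    exact htie (e j) (hchg j)
  · intro n a
    obtain ⟨t, h1, h2, h3⟩ := UR (e n) a
    obtain ⟨j, hj⟩ := (hS t).1 h2
    refine ⟨j, he.lt_iff_lt.1 (by omega), ?_⟩
    rw [hj]
    exact h3
  · intro n a
    obtain ⟨t, h1, h2, h3⟩ := UL (e n) a
    obtain ⟨j, hj⟩ := (hS t).1 h2
    refine ⟨j, he.lt_iff_lt.1 (by omega), ?_⟩
    rw [hj]
    exact h3

/-- Alternating chains of the derived sequence lift. -/
lemma ch_lift {e : ℤ → ℤ} (h : Enu (τ := τ) A e) {d : ℤ} (hd : 1 ≤ d) {n : ℕ} {j : ℤ}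
    (hc : Ch (fun j => min (A (e j)) (A (e j + 1))) d Set.univ n j) :
    ∃ k, (k = e j ∨ k = e j + 1) ∧ A k = min (A (e j)) (A (e j + 1)) + (n % 2 : ℕ) ∧
      Ch A (d + 1) Set.univ n k := by
  induction hc with
  | zero x hx =>
    have h1 := h.adj x
    have h2 := h.chg x
    rw [abs_le] at h1
    rcases le_total (A (e x)) (A (e x + 1)) with h3 | h3
    · exact ⟨e x, Or.inl rfl, by simp [h3], Ch.zero _ (Set.mem_univ _)⟩
    · exact ⟨e x + 1, Or.inr rfl, by simp [h3], Ch.zero _ (Set.mem_univ _)⟩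
  | up n x y hn _ hxy _ hA ih =>
    obtain ⟨k, hk1, hk2, hk3⟩ := ih
    have h1 := h.adj y
    have h2 := h.chg y
    rw [abs_le] at h1
    have hlt : x < y := by
      rcases eq_or_lt_of_le hxy with h3 | h3
      · subst h3
        omega
      · exact h3
    have he := h.mono hlt
    obtain ⟨k', hk1', hk2'⟩ : ∃ k', (k' = e y ∨ k' = e y + 1) ∧
        A k' = min (A (e y)) (A (e y + 1)) + 1 := by
      rcases le_total (A (e y)) (A (e y + 1)) with h3 | h3
      · exact ⟨e y + 1, Or.inr rfl, by rw [min_eq_left h3]; omega⟩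
      · exact ⟨e y, Or.inl rfl, by rw [min_eq_right h3]; omega⟩
    refine ⟨k', hk1', by rw [hk2']; omega, Ch.up n k k' hn hk3 (by omega) (Set.mem_univ _) ?_⟩
    omega
  | down n x y hn _ hxy _ hA ih =>
    obtain ⟨k, hk1, hk2, hk3⟩ := ih
    have h1 := h.adj y
    have h2 := h.chg y
    rw [abs_le] at h1
    have hlt : x < y := by
      rcases eq_or_lt_of_le hxy with h3 | h3
      · subst h3
        omega
      · exact h3
    have he := h.mono hlt
    obtain ⟨k', hk1', hk2'⟩ : ∃ k', (k' = e y ∨ k' = e y + 1) ∧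
        A k' = min (A (e y)) (A (e y + 1)) := by
      rcases le_total (A (e y)) (A (e y + 1)) with h3 | h3
      · exact ⟨e y, Or.inl rfl, by rw [min_eq_left h3]⟩
      · exact ⟨e y + 1, Or.inr rfl, by rw [min_eq_right h3]⟩
    refine ⟨k', hk1', by rw [hk2']; omega,
      Ch.down n k k' hn hk3 (by omega) (Set.mem_univ _) ?_⟩
    omega

/-- The derived sequence is again of this kind, with smaller `d`. -/
theorem Env.derived {d : ℤ} {N : ℕ} (hd : 1 ≤ d) (h : Env (d + 1) N τ A) :
    ∃ e B : ℤ → ℤ, Der τ A e B ∧ Env d N 0 B := by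
  obtain ⟨e, he⟩ := exists_enu h.adj h.tie h.ur h.ul
  refine ⟨e, fun j => min (A (e j)) (A (e j + 1)), ⟨he.mono, he.typ, he.const, he.tie⟩, ?_⟩
  constructor
  · intro j
    have h1 := he.next j
    have h2 := he.chg j
    have h3 := he.adj j
    have h4 := he.chg (j + 1)
    have h5 := he.adj (j + 1)
    rw [abs_le] at h3 h5 ⊢
    omega
  · intro j hne
    have h1 := he.next j
    have h2 := he.chg j
    have h3 := he.adj j
    have h4 := he.chg (j + 1)
    have h5 := he.adj (j + 1)
    have h6 := he.typ j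
    rw [abs_le] at h3 h5
    omega
  · intro j hj
    obtain ⟨k, _, _, hk⟩ := ch_lift he hd hj
    exact h.osc k hk
  · exact he.ur
  · exact he.ul

/-! ### The base case -/

/-- On a constant stretch the end of a chain can be moved to its start. -/
lemma ch_shift {n : ℕ} {x a b : ℤ} (hab : ∀ y, a ≤ y → y ≤ b → A y = A a)
    (hc : Ch A 1 Set.univ n x) (hx : x ≤ b) : ∃ x', x' ≤ a ∧ Ch A 1 Set.univ n x' := by
  rcases le_or_gt x a with h | h
  · exact ⟨x, h, hc⟩
  have hxa : A x = A a := hab x h.le hx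
  cases hc with
  | zero _ _ => exact ⟨a, le_rfl, Ch.zero _ (Set.mem_univ _)⟩
  | up n x0 _ hn hc0 h0 _ hA =>
    refine ⟨a, le_rfl, Ch.up n x0 a hn hc0 ?_ (Set.mem_univ _) (by omega)⟩
    by_contra hlt
    push Not at hlt
    have := hab x0 hlt.le (by omega)
    omega
  | down n x0 _ hn hc0 h0 _ hA =>
    refine ⟨a, le_rfl, Ch.down n x0 a hn hc0 ?_ (Set.mem_univ _) (by omega)⟩
    by_contra hlt
    push Not at hlt
    have := hab x0 hlt.le (by omega)
    omega

/-- After a rise an even chain can be prolonged. -/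
lemma ch_rise {n : ℕ} {a x : ℤ} (hn : n % 2 = 0) (ha : A (a + 1) = A a + 1) (hx : x ≤ a + 1)
    (hc : Ch A 1 Set.univ n x) : Ch A 1 Set.univ (n + 1) (a + 1) := by
  have key : Ch A 1 Set.univ n a → Ch A 1 Set.univ (n + 1) (a + 1) := fun h =>
    Ch.up n a (a + 1) hn h (by omega) (Set.mem_univ _) (by omega)
  rcases le_or_gt (A x) (A a) with h1 | h1
  · rcases eq_or_lt_of_le hx with h2 | h2
    · rw [h2] at h1
      omega
    · exact Ch.up n x (a + 1) hn hc hx (Set.mem_univ _) (by omega)
  · apply key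
    cases hc with
    | zero _ _ => exact Ch.zero _ (Set.mem_univ _)
    | up n x0 _ hn' _ _ _ _ => omega
    | down n x0 _ hn' hc0 h0 _ hA =>
      refine Ch.down n x0 a hn' hc0 ?_ (Set.mem_univ _) (by omega)
      rcases eq_or_lt_of_le (h0.trans hx) with h2 | h2
      · have : x = x0 := by omega
        rw [this] at hA
        omega
      · omega

/-- After a fall an odd chain can be prolonged. -/
lemma ch_fall {n : ℕ} {a x : ℤ} (hn : n % 2 = 1) (ha : A a = A (a + 1) + 1) (hx : x ≤ a + 1)
    (hc : Ch A 1 Set.univ n x) : Ch A 1 Set.univ (n + 1) (a + 1) := by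
  have key : Ch A 1 Set.univ n a → Ch A 1 Set.univ (n + 1) (a + 1) := fun h =>
    Ch.down n a (a + 1) hn h (by omega) (Set.mem_univ _) (by omega)
  rcases le_or_gt (A a) (A x) with h1 | h1
  · rcases eq_or_lt_of_le hx with h2 | h2
    · rw [h2] at h1
      omega
    · exact Ch.down n x (a + 1) hn hc hx (Set.mem_univ _) (by omega)
  · apply key
    cases hc with
    | zero _ _ => omega
    | up n x0 _ hn' hc0 h0 _ hA =>
      refine Ch.up n x0 a hn' hc0 ?_ (Set.mem_univ _) (by omega)
      rcases eq_or_lt_of_le (h0.trans hx) with h2 | h2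
      · have : x = x0 := by omega
        rw [this] at hA
        omega
      · omega
    | down n x0 _ hn' _ _ _ _ => omega

/-- The number of alternations up to the change `j`. -/
theorem exists_stair {N : ℕ} {e : ℤ → ℤ} (h : Enu (τ := τ) A e)
    (hosc : ∀ x, ¬ Ch A 1 Set.univ (N + 1) x) :
    ∃ r, Stair N r ∧ ∀ j, (min (A (e j)) (A (e j + 1)) - j - r j - 1) % 2 = 0 := by
  classical
  let P : ℤ → ℕ → Prop := fun j n => ∃ x, x ≤ e j + 1 ∧ Ch A 1 Set.univ n x
  let r : ℤ → ℕ := fun j => Nat.findGreatest (P j) N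
  have h0 : ∀ j, P j 0 := fun j => ⟨e j, by omega, Ch.zero _ (Set.mem_univ _)⟩
  have hr : ∀ j, P j (r j) := fun j => Nat.findGreatest_spec (Nat.zero_le N) (h0 j)
  have hrN : ∀ j, r j ≤ N := fun j => Nat.findGreatest_le N
  have hmax : ∀ j, ¬ P j (r j + 1) := by
    intro j hP
    rcases Nat.lt_or_ge (r j) N with h1 | h1
    · have h2 : r j + 1 ≤ r j := Nat.le_findGreatest (by omega) hP
      omega
    · obtain ⟨x, _, hx⟩ := hP
      have h2 : r j = N := le_antisymm (hrN j) h1
      rw [h2] at hx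
      exact hosc x hx
  have hmono : ∀ j, r j ≤ r (j + 1) := by
    intro j
    apply Nat.le_findGreatest (hrN j)
    obtain ⟨x, h1, h2⟩ := hr j
    exact ⟨x, by have := h.mono (show j < j + 1 by omega); omega, h2⟩
  have hstep : ∀ j, r (j + 1) ≤ r j + 1 := by
    intro j
    rcases Nat.eq_zero_or_pos (r (j + 1)) with h1 | h1
    · omega
    · obtain ⟨n, hn⟩ : ∃ n, r (j + 1) = n + 1 := ⟨r (j + 1) - 1, by omega⟩
      obtain ⟨x, h2, h3⟩ := hr (j + 1)
      have h4 : n ≤ r j := by
        apply Nat.le_findGreatest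
        · have := hrN (j + 1)
          omega
        · have hprev : ∃ x0, x0 ≤ e (j + 1) ∧ Ch A 1 Set.univ n x0 := by
            rw [hn] at h3
            cases h3 with
            | up _ x0 _ _ hc0 h5 _ h6 =>
              refine ⟨x0, ?_, hc0⟩
              by_contra hlt
              push Not at hlt
              have : x = x0 := by omega
              rw [this] at h6
              omega
            | down _ x0 _ _ hc0 h5 _ h6 =>
              refine ⟨x0, ?_, hc0⟩
              by_contra hlt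
              push Not at hlt
              have : x = x0 := by omega
              rw [this] at h6
              omega
          obtain ⟨x0, h5, h6⟩ := hprev
          obtain ⟨x', h7, h8⟩ := ch_shift (a := e j + 1) (b := e (j + 1)) (fun y hy hy' => by
            rw [h.const j y (by omega) hy', h.next]) h6 h5
          exact ⟨x', h7, h8⟩
      omega
  refine ⟨fun j => (r j : ℤ), ⟨fun k => Int.natCast_nonneg _, fun k => ?_, fun k => ?_,
    fun k => ?_⟩, fun j => ?_⟩
  · exact_mod_cast hrN k
  · exact_mod_cast hmono k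
  · exact_mod_cast hstep k
  · have h1 := h.adj j
    have h2 := h.chg j
    have h3 := h.typ j
    rw [abs_le] at h1
    obtain ⟨x, h4, h5⟩ := hr j
    rcases Nat.mod_two_eq_zero_or_one (r j) with h6 | h6
    · -- even: the change `j` is a fall
      have h7 : A (e j + 1) ≠ A (e j) + 1 := by
        intro h8
        exact hmax j ⟨e j + 1, le_rfl, ch_rise h6 h8 h4 h5⟩
      show (min (A (e j)) (A (e j + 1)) - j - (r j : ℤ) - 1) % 2 = 0
      have h9 : A (e j + 1) = A (e j) - 1 := by omega
      have h10 : ((r j : ℕ) : ℤ) % 2 = 0 := by omega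
      rw [h9]
      rw [min_eq_right (by omega)]
      omega
    · have h7 : A (e j) ≠ A (e j + 1) + 1 := by
        intro h8
        exact hmax j ⟨e j + 1, le_rfl, ch_fall h6 h8 h4 h5⟩
      show (min (A (e j)) (A (e j + 1)) - j - (r j : ℤ) - 1) % 2 = 0
      have h9 : A (e j + 1) = A (e j) + 1 := by omega
      have h10 : ((r j : ℕ) : ℤ) % 2 = 1 := by omega
      rw [h9]
      rw [min_eq_left (by omega)]
      omega

/-- Change of the letters by the parity of the position. -/
def twist : ℤ → List ℤ → List ℤ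
  | _, [] => []
  | π, x :: w => (x + π + 1) :: twist (π + 1) w

lemma twist_reach {r B : ℤ → ℤ} (h : ∀ j, (B j - j - r j - 1) % 2 = 0) (G : ℤ) (w : List ℤ) :
    ∀ (π K : ℤ), (K - π) % 2 = 0 → Reach (cst r) w K G → Reach (cst B) (twist π w) K G := by
  induction w with
  | nil =>
    intro π K _ hr
    obtain ⟨u, hu, hu2⟩ := hr
    rw [List.prefix_nil] at hu
    subst hu
    exact Reach.zero (by simpa using hu2)
  | cons x w ih =>
    intro π K hπ hr
    rcases reach_cons hr with hr | hr
    · exact Reach.zero hr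
    · apply Reach.cons
      have h1 := h K
      have h2 : cst B (x + π + 1) K = cst r x K := by
        unfold cst
        by_cases h3 : (r K - x) % 2 = 0
        · rw [if_pos h3, if_pos (by omega)]
        · rw [if_neg h3, if_neg (by omega)]
      rw [h2]
      have h3 := cst_parity r x K
      exact ih (π + 1) _ (by omega) hr

/-- For all label sequences with at most `N` alternating changes of size `d` there is a word which
moves the robot forward by at least `Q` cells. -/
theorem mover (d N : ℕ) : ∀ (τ ρ : ℤ) (Q : ℕ), ∃ w : List ℤ, ∀ A, Env (d + 1) N τ A →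
    ∀ K, (K - ρ) % 2 = 0 → Reach (cst A) w K (K + Q) := by
  induction d with
  | zero =>
    intro τ ρ Q
    obtain ⟨w', hw'⟩ := stair_mover N 0 (Q + 2)
    refine ⟨cexp τ (twist 0 w') 0 ρ Q, fun A hA K hK => ?_⟩
    obtain ⟨e, he⟩ := exists_enu hA.adj hA.tie hA.ur hA.ul
    obtain ⟨r, hr1, hr2⟩ := exists_stair (N := N) he (by simpa using hA.osc)
    have hD : Der τ A e (fun j => min (A (e j)) (A (e j + 1))) :=
      ⟨he.mono, he.typ, he.const, he.tie⟩
    exact mover_lift hD (fun J hJ => twist_reach hr2 _ w' 0 J hJ (hw' r hr1 J hJ)) hK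
  | succ d ih =>
    intro τ ρ Q
    obtain ⟨w', hw'⟩ := ih 0 0 (Q + 2)
    refine ⟨cexp τ w' 0 ρ Q, fun A hA K hK => ?_⟩
    have hA' : Env ((d : ℤ) + 1 + 1) N τ A := by exact_mod_cast hA
    obtain ⟨e, B, hD, hB⟩ := hA'.derived (by omega)
    exact mover_lift hD (fun J hJ => hw' B hB J hJ) hK

end Pool.Agent.BlindPath
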