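import Mathlib

/-!
Enumeration of an unbounded set of integers, and small facts on integer sequences.
-/

namespace Pool.Agent.BlindPath

/-- A set of integers without upper and lower bound is enumerated increasingly by `ℤ`. -/
theorem exists_enum (S : Set ℤ) (hu : ∀ n, ∃ s ∈ S, n < s) (hl : ∀ n, ∃ s ∈ S, s < n) :
    ∃ e : ℤ → ℤ, StrictMono e ∧ ∀ s, s ∈ S ↔ ∃ j, e j = s := by
  classical
  let ι := {s : ℤ // s ∈ S}
  have : LocallyFiniteOrder ι := inferInstanceAs (LocallyFiniteOrder {s : ℤ // s ∈ S})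
  let _ : SuccOrder ι := LinearLocallyFiniteOrder.succOrder ι
  let _ : PredOrder ι := LinearLocallyFiniteOrder.predOrder ι
  have : NoMaxOrder ι := ⟨fun a => by
    obtain ⟨s, hs, h⟩ := hu a.1
    exact ⟨⟨s, hs⟩, h⟩⟩
  have : NoMinOrder ι := ⟨fun a => by
    obtain ⟨s, hs, h⟩ := hl a.1
    exact ⟨⟨s, hs⟩, h⟩⟩
  have : Nonempty ι := by
    obtain ⟨s, hs, _⟩ := hu 0
    exact ⟨⟨s, hs⟩⟩
  let f : ι ≃o ℤ := orderIsoIntOfLinearSuccPredArch
  refine ⟨fun j => (f.symm j).1, fun i j hij => ?_, fun s => ⟨fun hs => ?_, ?_⟩⟩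
  · exact f.symm.strictMono hij
  · exact ⟨f ⟨s, hs⟩, by simp⟩
  · rintro ⟨j, rfl⟩
    exact (f.symm j).2

lemma strictMono_add {e : ℤ → ℤ} (he : StrictMono e) (j : ℤ) (n : ℕ) : e j + n ≤ e (j + n) := by
  induction n with
  | zero => simp
  | succ n ih =>
    have h := he (show j + (n : ℤ) < j + ((n + 1 : ℕ) : ℤ) by push_cast; omega)
    push_cast at h ⊢
    omega

/-- The last index whose value is at most `K`. -/
lemma exists_floor {e : ℤ → ℤ} (he : StrictMono e) (K : ℤ) :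
    ∃ j, e j ≤ K ∧ K < e (j + 1) := by
  have h1 : ∃ j, e j ≤ K := by
    refine ⟨-(|K - e 0|), ?_⟩
    have h := strictMono_add he (-(|K - e 0|)) (|K - e 0|).toNat
    have h2 : (((|K - e 0|).toNat : ℕ) : ℤ) = |K - e 0| := Int.toNat_of_nonneg (abs_nonneg _)
    rw [h2, neg_add_cancel] at h
    have h3 := neg_abs_le (K - e 0)
    linarith
  have h2 : ∃ b, ∀ j, e j ≤ K → j ≤ b := by
    refine ⟨|K - e 0|, fun j hj => ?_⟩
    by_contra hlt
    push Not at hlt
    have h0 : 0 ≤ |K - e 0| := abs_nonneg _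
    have h := strictMono_add he 0 j.toNat
    have h3 : ((j.toNat : ℕ) : ℤ) = j := Int.toNat_of_nonneg (by omega)
    rw [h3, zero_add] at h
    have h4 := le_abs_self (K - e 0)
    linarith
  obtain ⟨j, hj, hmax⟩ := Int.exists_greatest_of_bdd h2 h1
  refine ⟨j, hj, ?_⟩
  by_contra hlt
  push Not at hlt
  have := hmax _ hlt
  omega

/-- The last index of prescribed parity whose value is at most `K`. -/
lemma exists_floor_even {e : ℤ → ℤ} (he : StrictMono e) (K : ℤ) :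
    ∃ j, j % 2 = 0 ∧ e j ≤ K ∧ K < e (j + 2) := by
  obtain ⟨j, h1, h2⟩ := exists_floor he K
  rcases Int.emod_two_eq_zero_or_one j with h | h
  · exact ⟨j, h, h1, h2.trans (he (by omega))⟩
  · refine ⟨j - 1, by omega, (he (by omega : j - 1 < j)).le.trans h1, ?_⟩
    have : j - 1 + 2 = j + 1 := by ring
    rwa [this]

/-- Induction upwards from `a`. -/
lemma int_up {P : ℤ → Prop} {a b : ℤ} (h0 : P a) (hs : ∀ k, a ≤ k → k < b → P k → P (k + 1))
    {k : ℤ} (h1 : a ≤ k) (h2 : k ≤ b) : P k := by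
  induction k, h1 using Int.leInduction with
  | base => exact h0
  | succ n hn ih => exact hs n hn (by omega) (ih (by omega))

/-- The first change after `k`. -/
lemma first_change {P : ℤ → Prop} {k k' : ℤ} (hk : P k) (hk' : ¬ P k') (h : k ≤ k') :
    ∃ t, k ≤ t ∧ t < k' ∧ (∀ s, k ≤ s → s ≤ t → P s) ∧ ¬ P (t + 1) := by
  classical
  have h2 : ∃ b, ∀ j, (k ≤ j ∧ j ≤ k' ∧ ∀ s, k ≤ s → s ≤ j → P s) → j ≤ b :=
    ⟨k', fun j hj => hj.2.1⟩
  have h1 : ∃ j, (k ≤ j ∧ j ≤ k' ∧ ∀ s, k ≤ s → s ≤ j → P s) :=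
    ⟨k, le_refl _, h, fun s h1 h2 => by
      have : s = k := by omega
      rwa [this]⟩
  obtain ⟨t, ⟨ht1, ht2, ht3⟩, hmax⟩ := Int.exists_greatest_of_bdd h2 h1
  have htk : t < k' := by
    rcases lt_or_eq_of_le ht2 with h | h
    · exact h
    · exact absurd (ht3 k' (by omega) (by omega)) hk'
  refine ⟨t, ht1, htk, ht3, fun hP => ?_⟩
  have := hmax (t + 1) ⟨by omega, by omega, fun s h1 h2 => by
    rcases lt_or_eq_of_le h2 with h | h
    · exact ht3 s h1 (by omega)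
    · rwa [h]⟩
  omega

end Pool.Agent.BlindPath
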