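import Pool.Agent.BlindPath.Phys

/-!
From two-way infinite paths to arbitrary lattice paths: extension of the angles, and comparison of
the robots.
-/

namespace Pool.Agent.BlindPath

/-- The point of `[a, b]` nearest to `x`. -/
def cl (a b x : ℤ) : ℤ := max a (min b x)

lemma cl_mem {a b : ℤ} (hab : a ≤ b) (x : ℤ) : cl a b x ∈ Set.Icc a b := by
  unfold cl
  rw [Set.mem_Icc]
  omega

lemma cl_eq {a b x : ℤ} (h1 : a ≤ x) (h2 : x ≤ b) : cl a b x = x := by
  unfold cl
  omega

/-- The extension of the angles on `[a, b]` which goes up on both sides. -/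
def ext (θ : ℤ → ℤ) (a b x : ℤ) : ℤ := θ (cl a b x) + |x - cl a b x|

variable {θ : ℤ → ℤ} {a b : ℤ}

lemma ext_eq {x : ℤ} (h1 : a ≤ x) (h2 : x ≤ b) : ext θ a b x = θ x := by
  unfold ext
  rw [cl_eq h1 h2]
  simp

lemma ext_ge (x : ℤ) : θ (cl a b x) ≤ ext θ a b x := by
  unfold ext
  have := abs_nonneg (x - cl a b x)
  omega

lemma ext_right (hab : a ≤ b) {x : ℤ} (hx : b ≤ x) : ext θ a b x = θ b + (x - b) := by
  have h : cl a b x = b := by unfold cl; omega
  unfold ext
  rw [h, abs_of_nonneg (by omega)]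

lemma ext_left (hab : a ≤ b) {x : ℤ} (hx : x ≤ a) : ext θ a b x = θ a + (a - x) := by
  have h : cl a b x = a := by unfold cl; omega
  unfold ext
  rw [h, abs_of_nonpos (by omega)]
  ring

lemma ext_adj (hab : a ≤ b) (h : ∀ k, a ≤ k → k < b → |θ (k + 1) - θ k| ≤ 1) (k : ℤ) :
    |ext θ a b (k + 1) - ext θ a b k| ≤ 1 := by
  rcases le_or_gt b k with h1 | h1
  · rw [ext_right hab h1, ext_right hab (by omega : b ≤ k + 1)]
    rw [abs_le]
    omega
  · rcases lt_or_ge k a with h2 | h2
    · rw [ext_left hab h2.le, ext_left hab (by omega : k + 1 ≤ a)]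
      rw [abs_le]
      omega
    · rw [ext_eq h2 h1.le, ext_eq (by omega) (by omega : k + 1 ≤ b)]
      exact h k h2 h1

lemma ch_ext (hab : a ≤ b) {D : ℤ} (hD : 1 ≤ D) {n : ℕ} {x : ℤ}
    (h : Ch (ext θ a b) D Set.univ n x) :
    (n % 2 = 0 → Ch θ D (Set.Icc a b) n (cl a b x)) ∧
      (n % 2 = 1 → (x ≤ b → Ch θ D (Set.Icc a b) n x) ∧ ∃ z, Ch θ D (Set.Icc a b) (n - 1) z) := by
  induction h with
  | zero x _ => exact ⟨fun _ => Ch.zero _ (cl_mem hab x), fun h => by omega⟩
  | up n x y hn _ hxy _ hA ih =>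
    refine ⟨fun h => by omega, fun _ => ⟨fun hy => ?_, ?_⟩⟩
    · have h1 := ih.1 hn
      have h2 : a ≤ y := by
        by_contra hlt
        rw [ext_left hab (by omega : x ≤ a), ext_left hab (by omega : y ≤ a)] at hA
        omega
      refine Ch.up n _ y hn h1 ?_ (Set.mem_Icc.2 ⟨h2, hy⟩) ?_
      · unfold cl
        omega
      · have h3 := ext_ge (θ := θ) (a := a) (b := b) x
        rw [ext_eq h2 hy] at hA
        omega
    · exact ⟨_, by simpa using ih.1 hn⟩
  | down n x y hn _ hxy _ hA ih =>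
    refine ⟨fun _ => ?_, fun h => by omega⟩
    have h1 : x ≤ b := by
      by_contra hlt
      rw [ext_right hab (by omega : b ≤ x), ext_right hab (by omega : b ≤ y)] at hA
      omega
    have h2 := (ih.2 hn).1 h1
    have h3 : x ∈ Set.Icc a b := by
      cases h2 with
      | zero _ h => exact h
      | up _ _ _ _ _ _ h _ => exact h
      | down _ _ _ _ _ _ h _ => exact h
    rw [Set.mem_Icc] at h3
    refine Ch.down n x _ hn h2 ?_ (cl_mem hab y) ?_
    · unfold cl
      omega
    · have h4 := ext_ge (θ := θ) (a := a) (b := b) y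
      rw [ext_eq h3.1 h3.2] at hA
      omega

theorem ext_phys (hab : a ≤ b) (hadj : ∀ k, a ≤ k → k < b → |θ (k + 1) - θ k| ≤ 1) {D : ℤ}
    (hD : 1 ≤ D) {N : ℕ} (hosc : ∀ z, ¬ Ch θ D (Set.Icc a b) N z) : Phys D N (ext θ a b) := by
  refine ⟨ext_adj hab hadj, fun x hx => ?_, fun n c => ?_, fun n c => ?_⟩
  · have h1 := ch_ext hab hD hx
    rcases Nat.mod_two_eq_zero_or_one (N + 1) with h2 | h2
    · have h3 := h1.1 h2
      cases h3 with
      | up _ x0 _ _ hc _ _ _ => exact hosc x0 hc
      | down _ x0 _ _ hc _ _ _ => exact hosc x0 hc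
    · obtain ⟨z, hz⟩ := (h1.2 h2).2
      exact hosc z (by simpa using hz)
  · refine ⟨|n| + |b| + |c| + |θ b| + 1, ?_, ?_⟩
    · have := le_abs_self n
      have := abs_nonneg b
      have := abs_nonneg c
      have := abs_nonneg (θ b)
      omega
    · have h1 := le_abs_self n
      have h2 := le_abs_self b
      have h3 := le_abs_self c
      have h4 := neg_abs_le (θ b)
      have h5 := abs_nonneg n
      have h6 := abs_nonneg b
      have h7 := abs_nonneg c
      have h8 := abs_nonneg (θ b)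
      rw [ext_right hab (by omega)]
      omega
  · refine ⟨-(|n| + |a| + |c| + |θ a| + 1), ?_, ?_⟩
    · have := neg_abs_le n
      have := abs_nonneg a
      have := abs_nonneg c
      have := abs_nonneg (θ a)
      omega
    · have h1 := neg_abs_le n
      have h2 := neg_abs_le a
      have h3 := le_abs_self c
      have h4 := neg_abs_le (θ a)
      have h5 := abs_nonneg n
      have h6 := abs_nonneg a
      have h7 := abs_nonneg c
      have h8 := abs_nonneg (θ a)
      rw [ext_left hab (by omega)]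
      omega

/-! ### The robot on a lattice path -/

/-- The edges of a path whose vertices are indexed by `I`. -/
def edges (I : Set ℤ) : Set ℤ := {x | x ∈ I ∧ x + 1 ∈ I}

open Classical in
/-- The effect of the letter `c` on the robot at the vertex `x` of the path with vertices `I`. -/
noncomputable def tst (I : Set ℤ) (θ : ℤ → ℤ) (c x : ℤ) : ℤ :=
  if x ∈ edges I ∧ (θ x - c) % 4 = 0 then x + 1
  else if x - 1 ∈ edges I ∧ (θ (x - 1) - c - 2) % 4 = 0 then x - 1 else x

lemma tst_le (I : Set ℤ) (θ : ℤ → ℤ) (c x : ℤ) : tst I θ c x ≤ x + 1 := by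
  unfold tst
  split_ifs <;> omega

lemma tst_low (I : Set ℤ) (θ : ℤ → ℤ) : Low (tst I θ) := by
  intro c x
  unfold tst
  split_ifs <;> omega

lemma tst_mem {I : Set ℤ} {c x : ℤ} (hx : x ∈ I) : tst I θ c x ∈ I := by
  unfold tst
  split_ifs with h1 h2
  · exact h1.1.2
  · exact h2.1.1
  · exact hx

lemma tst_dom {I : Set ℤ} {θ' : ℤ → ℤ} {c x : ℤ} (hE : x ∈ edges I) (hx : θ' x = θ x)
    (hx' : x - 1 ∈ edges I → θ' (x - 1) = θ (x - 1)) : pst θ' c x ≤ tst I θ c x := by
  have h1 := tst_low I θ c x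
  by_cases h2 : (θ x - c) % 4 = 0
  · have h3 : tst I θ c x = x + 1 := by
      unfold tst
      rw [if_pos ⟨hE, h2⟩]
    rw [h3]
    exact pst_le θ' c x
  · by_cases h4 : (θ' (x - 1) - c - 2) % 4 = 0
    · have h5 : pst θ' c x = x - 1 := by
        unfold pst
        rw [hx, if_neg h2, if_pos h4]
      omega
    · have h5 : pst θ' c x = x := by
        unfold pst
        rw [hx, if_neg h2, if_neg h4]
      have h6 : tst I θ c x = x := by
        unfold tst
        rw [if_neg (fun h => h2 h.2), if_neg]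
        rintro ⟨h7, h8⟩
        rw [hx' h7] at h4
        exact h4 h8
      omega

lemma reach_tst {I : Set ℤ} (hI : I.OrdConnected) {θ' : ℤ → ℤ} {t : ℤ} (ht : t ∈ I)
    (w : List ℤ) : ∀ (x y : ℤ), x ∈ I → y ≤ x → x ≤ t →
      (∀ z ∈ edges I, x - w.length ≤ z → z < t → θ' z = θ z) →
      Reach (pst θ') w y t → ∃ u, u <+: w ∧ run (tst I θ) u x = t := by
  induction w with
  | nil =>
    intro x y _ hyx hxt _ hr
    obtain ⟨u, hu, hu2⟩ := hr
    rw [List.prefix_nil] at hu
    subst hu
    have : t ≤ y := by simpa using hu2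
    exact ⟨[], List.nil_prefix, by show x = t; omega⟩
  | cons c w ih =>
    intro x y hx hyx hxt hz hr
    rcases eq_or_lt_of_le hxt with h1 | h1
    · exact ⟨[], List.nil_prefix, h1⟩
    rcases reach_cons hr with hr | hr
    · omega
    have hE : x ∈ edges I := ⟨hx, hI.out hx ht (Set.mem_Icc.2 ⟨by omega, by omega⟩)⟩
    have h2 : pst θ' c x ≤ tst I θ c x := by
      apply tst_dom hE (hz x hE (by push_cast [List.length_cons]; omega) h1)
      intro h3
      exact hz _ h3 (by push_cast [List.length_cons]; omega) (by omega)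
    have h3 := pst_mono θ' c hyx
    have h4 := tst_le I θ c x
    have h5 := tst_low I θ c x
    obtain ⟨u, hu1, hu2⟩ := ih (tst I θ c x) (pst θ' c y) (tst_mem hx) (by omega) (by omega)
      (fun z hz1 hz2 hz3 => hz z hz1 (by push_cast [List.length_cons]; omega) hz3) hr
    exact ⟨c :: u, List.cons_prefix_cons.2 ⟨rfl, hu1⟩, hu2⟩

end Pool.Agent.BlindPath
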