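import Pool.Agent.BlindPath.Maze

/-!
The total turn of a simple lattice path is bounded by the number of its vertices on horizontal (or
vertical) lines: a discrete form of the rotation argument of Hopf.
-/

namespace Pool.Agent.BlindPath

/-- The sector (0 to 7) of a nonzero vector: half-axes and open quadrants. -/
def sec (v : V) : ℤ :=
  if v.2 = 0 then (if 0 < v.1 then 0 else 4)
  else if 0 < v.2 then (if 0 < v.1 then 1 else if v.1 = 0 then 2 else 3)
  else (if v.1 < 0 then 5 else if v.1 = 0 then 6 else 7)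

lemma sec_letter (a : ℤ) : (sec (letter a).vec - 2 * a) % 8 = 0 := by
  have ha : a % 4 = 0 ∨ a % 4 = 1 ∨ a % 4 = 2 ∨ a % 4 = 3 := by omega
  rcases ha with ha | ha | ha | ha <;> simp [letter, Dir.vec, sec, ha] <;> omega

lemma sec_fst {v : V} (hv : v ≠ 0) (h : (sec v - 2) % 4 = 0) : v.1 = 0 := by
  obtain ⟨x, y⟩ := v
  rw [Ne, Prod.mk_eq_zero] at hv
  unfold sec at h
  show x = 0
  dsimp only at h
  split_ifs at h <;> omega

lemma sec_snd {v : V} (hv : v ≠ 0) (h : (sec v - 0) % 4 = 0) : v.2 = 0 := by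
  obtain ⟨x, y⟩ := v
  rw [Ne, Prod.mk_eq_zero] at hv
  unfold sec at h
  show y = 0
  dsimp only at h
  split_ifs at h <;> omega

/-- A unit step changes the sector by at most one. -/
lemma sec_step {v : V} (c : Dir) (hv : v ≠ 0) (hv' : v + c.vec ≠ 0) :
    (sec (v + c.vec) - sec v) % 8 = 0 ∨ (sec (v + c.vec) - sec v) % 8 = 1 ∨
      (sec (v + c.vec) - sec v) % 8 = 7 := by
  obtain ⟨x, y⟩ := v
  rw [Ne, Prod.mk_eq_zero] at hv
  cases c <;> simp only [Dir.vec, Prod.mk_add_mk] at hv' ⊢ <;> rw [Ne, Prod.mk_eq_zero] at hv' <;>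
    simp only [sec] <;> split_ifs <;> omega

/-- Lifting modulo 8. -/
lemma exists_lift (s : ℤ → ℤ) (a c : ℤ) (hc : (c - s a) % 8 = 0) : ∃ f : ℤ → ℤ, f a = c ∧
    (∀ j, |f (j + 1) - f j| ≤ 1) ∧ ∀ b, (∀ j, a ≤ j → j < b → (s (j + 1) - s j) % 8 = 0 ∨
      (s (j + 1) - s j) % 8 = 1 ∨ (s (j + 1) - s j) % 8 = 7) →
      ∀ j, a ≤ j → j ≤ b → (f j - s j) % 8 = 0 := by
  obtain ⟨F, hF⟩ := exists_int (fun j => if (s j - s (j - 1)) % 8 = 1 then 1 else
    if (s j - s (j - 1)) % 8 = 7 then -1 else 0)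
  simp only [add_sub_cancel_right] at hF
  refine ⟨fun j => F j - F a + c, by ring, fun j => ?_, fun b hb j hj1 hj2 => ?_⟩
  · show |F (j + 1) - F a + c - (F j - F a + c)| ≤ 1
    rw [hF, abs_le]
    split_ifs <;> omega
  · refine int_up (P := fun k => (F k - F a + c - s k) % 8 = 0) (a := a) (b := b) ?_ ?_ hj1 hj2
    · show (F a - F a + c - s a) % 8 = 0
      omega
    · intro k h1 h2 h3
      show (F (k + 1) - F a + c - s (k + 1)) % 8 = 0
      have h4 := hb k h1 h2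
      rw [hF]
      split_ifs <;> omega

/-- Intermediate values. -/
lemma ivt {f : ℤ → ℤ} {a b : ℤ} (hf : ∀ j, a ≤ j → j < b → |f (j + 1) - f j| ≤ 1)
    (hab : a ≤ b) {v : ℤ} (h1 : f a ≤ v) (h2 : v ≤ f b) : ∃ j, a ≤ j ∧ j ≤ b ∧ f j = v := by
  rcases eq_or_lt_of_le h1 with h | h
  · exact ⟨a, le_rfl, hab, h⟩
  · obtain ⟨t, t1, t2, t3, t4⟩ := first_change (P := fun j => f j < v) h
      (show ¬ f b < v by omega) hab
    refine ⟨t + 1, by omega, by omega, ?_⟩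
    have h3 := hf t t1 t2
    have h4 := t3 t t1 le_rfl
    rw [abs_le] at h3
    omega

/-- A function with steps at most one, which has few values in a class modulo 4, changes little. -/
lemma count_up {f : ℤ → ℤ} {a b : ℤ} (hf : ∀ j, a ≤ j → j < b → |f (j + 1) - f j| ≤ 1)
    (hab : a ≤ b) (r : ℤ) {S : Set ℤ} (hS : S.Finite) (m : ℕ) (hm : S.ncard ≤ m)
    (hr : ∀ j, a ≤ j → j ≤ b → (f j - r) % 4 = 0 → j ∈ S) : f b - f a ≤ 4 * m + 3 := by
  by_contra hlt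
  push Not at hlt
  -- the first value in the class
  obtain ⟨v, hv1, hv2, hv3⟩ : ∃ v, f a ≤ v ∧ v ≤ f a + 3 ∧ (v - r) % 4 = 0 :=
    ⟨f a + (r - f a) % 4, by omega, by omega, by omega⟩
  have key : ∀ t : ℕ, t < m + 1 → ∃ j, a ≤ j ∧ j ≤ b ∧ f j = v + 4 * t := fun t ht =>
    ivt hf hab (by omega) (by omega)
  choose! g hg1 hg2 hg3 using key
  have h1 : ((Finset.range (m + 1)).image g : Set ℤ) ⊆ S := by
    intro z hz
    simp only [Finset.coe_image, Finset.coe_range, Set.mem_image, Set.mem_Iio] at hz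
    obtain ⟨t, ht, rfl⟩ := hz
    apply hr _ (hg1 t ht) (hg2 t ht)
    rw [hg3 t ht]
    omega
  have h2 : ((Finset.range (m + 1)).image g).card = m + 1 := by
    rw [Finset.card_image_of_injOn, Finset.card_range]
    intro t ht t' ht' htt
    simp only [Finset.coe_range, Set.mem_Iio] at ht ht'
    have h3 := hg3 t ht
    have h4 := hg3 t' ht'
    rw [htt] at h3
    omega
  have h3 := Set.ncard_le_ncard h1 hS
  rw [Set.ncard_coe_finset, h2] at h3
  omega

lemma count_abs {f : ℤ → ℤ} {a b : ℤ} (hf : ∀ j, a ≤ j → j < b → |f (j + 1) - f j| ≤ 1)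
    (hab : a ≤ b) (r : ℤ) {S : Set ℤ} (hS : S.Finite) (m : ℕ) (hm : S.ncard ≤ m)
    (hr : ∀ j, a ≤ j → j ≤ b → (f j - r) % 4 = 0 → j ∈ S) : |f b - f a| ≤ 4 * m + 3 := by
  rw [abs_le]
  have h1 := count_up hf hab r hS m hm hr
  have h2 := count_up (f := fun j => -f j) (a := a) (b := b) (fun j h1 h2 => by
    have := hf j h1 h2
    rw [abs_le] at this ⊢
    omega) hab (-r) hS m hm (fun j h1 h2 h3 => hr j h1 h2 (by omega))
  constructor <;> omega

/-- The total turn of a lattice path between two edges, if every line of the direction belonging to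
`r` contains at most `m` vertices of the path. -/
theorem turn_bound {M : SimpleGraph V} (hM : Board M) {o : V} {I : Set ℤ} {γ : ℤ → V}
    (h : IsPath M o I γ) {θ : ℤ → ℤ}
    (hθ : ∀ k ∈ edges I, (letter (θ k)).vec = γ (k + 1) - γ k)
    (hadj : ∀ k, k ∈ I → k + 1 ∈ I → k + 2 ∈ I → |θ (k + 1) - θ k| ≤ 1)
    {c : V → ℤ} (hcs : ∀ u v, c (u - v) = c u - c v) {r : ℤ}
    (hc : ∀ v, v ≠ 0 → (sec v - r) % 4 = 0 → c v = 0) {J : Set ℤ} (hJ : J.OrdConnected)
    (hJI : J ⊆ I) {n m : ℕ}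
    (hm : ∀ y, {j | j ∈ J ∧ |j| ≤ n ∧ c (γ j) = y}.ncard ≤ m) {p q : ℤ} (hp : p ∈ edges J)
    (hq : q ∈ edges J) (hpq : p ≤ q) (hpn : -(n : ℤ) ≤ p) (hqn : q + 1 ≤ n) :
    |θ q - θ p| ≤ 4 * m + 3 := by
  -- the part of the path
  have hJ' : ∀ j, p ≤ j → j ≤ q + 1 → j ∈ J := fun j h1 h2 =>
    hJ.out hp.1 hq.2 ⟨h1, h2⟩
  have hI : ∀ j, p ≤ j → j ≤ q + 1 → j ∈ I := fun j h1 h2 => hJI (hJ' j h1 h2)
  have hne : ∀ i j, p ≤ i → i < j → j ≤ q + 1 → γ j - γ i ≠ 0 := by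
    intro i j h1 h2 h3 h4
    have := h.inj (hI j (by omega) h3) (hI i h1 (by omega)) (sub_eq_zero.1 h4)
    omega
  have hvec : ∀ j, p ≤ j → j < q + 1 → ∃ d : Dir, γ (j + 1) = γ j + d.vec := by
    intro j h1 h2
    exact hM _ _ ((h.adj j (hI j h1 (by omega)) (j + 1) (hI _ (by omega) (by omega))).2
      (Or.inl rfl))
  have hvec' : ∀ j, p ≤ j → j < q + 1 → ∃ d : Dir, γ j = γ (j + 1) + d.vec := by
    intro j h1 h2
    exact hM _ _ ((h.adj (j + 1) (hI _ (by omega) (by omega)) j (hI j h1 (by omega))).2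
      (Or.inr rfl))
  -- the secants from a fixed vertex
  have hlift : ∀ i, p ≤ i → i ≤ q → ∃ f : ℤ → ℤ, f (i + 1) = 2 * θ i ∧
      (∀ j, |f (j + 1) - f j| ≤ 1) ∧
      ∀ j, i + 1 ≤ j → j ≤ q + 1 → (f j - sec (γ j - γ i)) % 8 = 0 := by
    intro i h1 h2
    have hi : i ∈ edges I := ⟨hI i h1 (by omega), hI _ (by omega) (by omega)⟩
    obtain ⟨f, f1, f2, f3⟩ := exists_lift (fun j => sec (γ j - γ i)) (i + 1) (2 * θ i) (by
      show (2 * θ i - sec (γ (i + 1) - γ i)) % 8 = 0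
      rw [← hθ i hi]
      have := sec_letter (θ i)
      omega)
    refine ⟨f, f1, f2, fun j h3 h4 => f3 (q + 1) (fun j h5 h6 => ?_) j h3 h4⟩
    obtain ⟨d, hd⟩ := hvec j (by omega) h6
    have e : γ (j + 1) - γ i = γ j - γ i + d.vec := by rw [hd]; abel
    show (sec (γ (j + 1) - γ i) - sec (γ j - γ i)) % 8 = 0 ∨ _ ∨ _
    rw [e]
    apply sec_step d (hne i j h1 (by omega) (by omega))
    rw [← e]
    exact hne i (j + 1) h1 (by omega) (by omega)
  choose! f f1 f2 f3 using hlift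
  -- change of the start vertex
  have hcmp : ∀ i, p ≤ i → i + 1 ≤ q → ∀ j, i + 2 ≤ j → j ≤ q + 1 →
      |f (i + 1) j - f i j| ≤ 1 := by
    intro i h1 h2 j h3 h4
    have hsec : ∀ j, i + 2 ≤ j → j ≤ q + 1 →
        (sec (γ j - γ (i + 1)) - sec (γ j - γ i)) % 8 = 0 ∨
        (sec (γ j - γ (i + 1)) - sec (γ j - γ i)) % 8 = 1 ∨
        (sec (γ j - γ (i + 1)) - sec (γ j - γ i)) % 8 = 7 := by
      intro j h3 h4
      obtain ⟨d, hd⟩ := hvec' i h1 (by omega)
      have e : γ j - γ (i + 1) = γ j - γ i + d.vec := by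
        have : d.vec = γ i - γ (i + 1) := by rw [eq_sub_iff_add_eq, add_comm]; exact hd.symm
        rw [this]
        abel
      rw [e]
      apply sec_step d (hne i j h1 (by omega) (by omega))
      rw [← e]
      exact hne (i + 1) j (by omega) (by omega) (by omega)
    refine int_up (P := fun j => |f (i + 1) j - f i j| ≤ 1) (a := i + 2) (b := q + 1) ?_ ?_ h3 h4
    · show |f (i + 1) (i + 2) - f i (i + 2)| ≤ 1
      have g1 := f1 (i + 1) (by omega) h2
      have g2 := f1 i h1 (by omega)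
      have g3 := f2 i h1 (by omega) (i + 1)
      rw [show i + 1 + 1 = i + 2 by ring] at g1 g3
      have g4 := f3 (i + 1) (by omega) h2 (i + 2) (by omega) (by omega)
      have g5 := f3 i h1 (by omega) (i + 2) (by omega) (by omega)
      have g6 := hsec (i + 2) le_rfl (by omega)
      have g7 := hadj i (hI i h1 (by omega)) (hI _ (by omega) (by omega))
        (hI _ (by omega) (by omega))
      rw [abs_le] at g3 g7 ⊢
      omega
    · intro j h5 h6 h7
      have g1 := f2 (i + 1) (by omega) h2 j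
      have g2 := f2 i h1 (by omega) j
      have g4 := f3 (i + 1) (by omega) h2 (j + 1) (by omega) (by omega)
      have g5 := f3 i h1 (by omega) (j + 1) (by omega) (by omega)
      have g6 := hsec (j + 1) (by omega) (by omega)
      have h7' : |f (i + 1) j - f i j| ≤ 1 := h7
      show |f (i + 1) (j + 1) - f i (j + 1)| ≤ 1
      rw [abs_le] at g1 g2 h7' ⊢
      omega
  have hfin : ∀ y, {j | j ∈ J ∧ |j| ≤ (n : ℤ) ∧ c (γ j) = y}.Finite := by
    intro y
    apply (Set.finite_Icc (-(n : ℤ)) n).subset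
    intro j hj
    exact abs_le.1 hj.2.1
  -- first part: the start vertex is fixed
  have A := count_abs (f := f p) (a := p + 1) (b := q + 1)
    (fun j _ _ => f2 p le_rfl hpq j) (by omega) r (hfin (c (γ p))) m (hm _) (by
      intro j h1 h2 h3
      have g := f3 p le_rfl hpq j h1 h2
      refine ⟨hJ' j (by omega) h2, abs_le.2 ⟨by omega, by omega⟩, ?_⟩
      have := hc _ (hne p j le_rfl (by omega) h2) (by omega)
      rw [hcs] at this
      omega)
  -- second part: the end vertex is fixed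
  have B := count_abs (f := fun i => f i (q + 1)) (a := p) (b := q)
    (fun j h1 h2 => hcmp j h1 (by omega) (q + 1) (by omega) le_rfl) hpq r
    (hfin (c (γ (q + 1)))) m (hm _) (by
      intro j h1 h2 h3
      have g := f3 j h1 h2 (q + 1) (by omega) le_rfl
      refine ⟨hJ' j h1 (by omega), abs_le.2 ⟨by omega, by omega⟩, ?_⟩
      have h3' : (f j (q + 1) - r) % 4 = 0 := h3
      have := hc _ (hne j (q + 1) h1 (by omega) le_rfl) (by omega)
      rw [hcs] at this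
      omega)
  have B' : |f q (q + 1) - f p (q + 1)| ≤ 4 * m + 3 := B
  have g1 := f1 p le_rfl hpq
  have g2 := f1 q hpq le_rfl
  rw [abs_le] at A B' ⊢
  omega

/-- The sum of the turns. -/
lemma sum_turn {γ : ℤ → V} {θ : ℤ → ℤ} (hθ : ∀ k, θ (k + 1) = θ k + turn γ (k + 1)) {a b : ℤ}
    (hab : a ≤ b) : ∑ j ∈ Finset.Ioc a b, turn γ j = θ b - θ a := by
  obtain ⟨k, hk⟩ : ∃ k : ℕ, b = a + k := ⟨(b - a).toNat, by omega⟩
  rw [hk, sum_int hθ]

/-- Few vertices on every line of one of the two directions: no large turns. -/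
theorem not_alternates {M : SimpleGraph V} (hM : Board M) {o : V} {I : Set ℤ} {γ : ℤ → V}
    (h : IsPath M o I γ) {c : V → ℤ} (hcs : ∀ u v, c (u - v) = c u - c v) {r : ℤ}
    (hc : ∀ v, v ≠ 0 → (sec v - r) % 4 = 0 → c v = 0) {J : Set ℤ} (hJ : J.OrdConnected)
    (hJI : J ⊆ I) {n m : ℕ} (hm : ∀ y, {j | j ∈ J ∧ |j| ≤ n ∧ c (γ j) = y}.ncard ≤ m)
    {K N : ℕ} (hK : 4 * m + 3 < K) (hN : 0 < N) : ¬ Alternates J γ n K N := by
  rintro ⟨s, x, h1, h2, h3⟩
  obtain ⟨θ, hθ1, hθ2, hθ3⟩ := exists_angle hM h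
  obtain ⟨a1, a2, a3, a4⟩ := h2 0 (by omega)
  obtain ⟨b1, b2, b3, b4⟩ := h2 1 (by omega)
  obtain ⟨h4, h5⟩ := h3 0 hN
  rw [zero_add] at h4 h5
  rw [sum_turn hθ1 h4] at h5
  have h6 := turn_bound hM h hθ2 hθ3 hcs hc hJ hJI hm (p := x 0) (q := x 1) ⟨a1, a2⟩ ⟨b1, b2⟩
    h4 a3 b4
  rw [abs_le] at h6
  rw [pow_zero, mul_one] at h5
  rcases h1 with h1 | h1
  · rw [h1] at h5
    omega
  · rw [h1] at h5
    omega

/-- A strip meets every row in a bounded number of points. -/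
lemma strip_row {a b c : ℝ} (ha : a ≠ 0) {γ : ℤ → V} {J : Set ℤ} (hinj : Set.InjOn γ J)
    (h : ∀ i ∈ J, |a * (γ i).1 + b * (γ i).2| ≤ c) (n : ℕ) (y : ℤ) :
    {i | i ∈ J ∧ |i| ≤ (n : ℤ) ∧ (γ i).2 = y}.ncard ≤ ⌈2 * c / |a|⌉₊ + 1 := by
  have hfin : {i | i ∈ J ∧ |i| ≤ (n : ℤ) ∧ (γ i).2 = y}.Finite :=
    (Set.finite_Icc (-(n : ℤ)) n).subset fun j hj => abs_le.1 hj.2.1
  rcases Set.eq_empty_or_nonempty {i | i ∈ J ∧ |i| ≤ (n : ℤ) ∧ (γ i).2 = y} with he | hne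
  · rw [he]
    simp
  -- the leftmost point
  obtain ⟨i0, hi0, hmin⟩ := Set.exists_min_image _ (fun i => (γ i).1) hfin hne
  have hapos : 0 < |a| := abs_pos.2 ha
  have hsub : (fun i => (γ i).1) '' {i | i ∈ J ∧ |i| ≤ (n : ℤ) ∧ (γ i).2 = y} ⊆
      Finset.Icc (γ i0).1 ((γ i0).1 + ⌈2 * c / |a|⌉₊) := by
    rintro _ ⟨i, hi, rfl⟩
    simp only [Finset.coe_Icc, Set.mem_Icc]
    refine ⟨hmin i hi, ?_⟩
    have h1 := h i hi.1
    have h2 := h i0 hi0.1
    rw [hi.2.2] at h1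
    rw [hi0.2.2] at h2
    have h3 : |a * (((γ i).1 : ℝ) - (γ i0).1)| ≤ 2 * c := by
      have h4 : a * (((γ i).1 : ℝ) - (γ i0).1) =
          (a * (γ i).1 + b * y) - (a * (γ i0).1 + b * y) := by ring
      rw [h4]
      calc _ ≤ |a * (γ i).1 + b * y| + |a * (γ i0).1 + b * y| := abs_sub _ _
        _ ≤ 2 * c := by linarith
    rw [abs_mul] at h3
    have h5 : |((γ i).1 : ℝ) - (γ i0).1| ≤ 2 * c / |a| := by
      rw [le_div_iff₀ hapos]
      linarith
    have h6 : ((γ i).1 : ℝ) - (γ i0).1 ≤ ⌈2 * c / |a|⌉₊ :=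
      (le_abs_self _).trans (h5.trans (Nat.le_ceil _))
    have h7 : ((γ i).1 : ℝ) ≤ (((γ i0).1 + ⌈2 * c / |a|⌉₊ : ℤ) : ℝ) := by
      push_cast
      linarith
    exact_mod_cast h7
  have hinj' : Set.InjOn (fun i => (γ i).1) {i | i ∈ J ∧ |i| ≤ (n : ℤ) ∧ (γ i).2 = y} := by
    intro i hi j hj hij
    exact hinj hi.1 hj.1 (Prod.ext hij (hi.2.2.trans hj.2.2.symm))
  rw [← Set.InjOn.ncard_image hinj']
  refine (Set.ncard_le_ncard hsub (Finset.finite_toSet _)).trans ?_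
  rw [Set.ncard_coe_finset, Int.card_Icc]
  omega

lemma strip_col {a b c : ℝ} (hb : b ≠ 0) {γ : ℤ → V} {J : Set ℤ} (hinj : Set.InjOn γ J)
    (h : ∀ i ∈ J, |a * (γ i).1 + b * (γ i).2| ≤ c) (n : ℕ) (x : ℤ) :
    {i | i ∈ J ∧ |i| ≤ (n : ℤ) ∧ (γ i).1 = x}.ncard ≤ ⌈2 * c / |b|⌉₊ + 1 := by
  have := strip_row (a := b) (b := a) (c := c) hb (γ := fun i => ((γ i).2, (γ i).1)) (J := J)
    (fun i hi j hj hij => hinj hi hj (by
      have h1 := (Prod.mk_inj.1 hij)
      exact Prod.ext h1.2 h1.1)) (fun i hi => by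
      show |b * (γ i).2 + a * (γ i).1| ≤ c
      rw [add_comm]
      exact h i hi) n x
  exact this

end Pool.Agent.BlindPath
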