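import Pool.Agent.BlindPath.Algo
import Pool.Agent.BlindPath.Defs

/-!
Mazes on the square lattice whose origin component is a path, and the reduction to the robots of
`Pool.Agent.BlindPath.Algo`.
-/

namespace Pool.Agent.BlindPath

/-- The letter with number `a` modulo 4. -/
def letter (a : ℤ) : Dir :=
  if a % 4 = 0 then .E else if a % 4 = 1 then .N else if a % 4 = 2 then .W else .S

lemma letter_vec_eq {a b : ℤ} : (letter a).vec = (letter b).vec ↔ (a - b) % 4 = 0 := by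
  have ha : a % 4 = 0 ∨ a % 4 = 1 ∨ a % 4 = 2 ∨ a % 4 = 3 := by omega
  have hb : b % 4 = 0 ∨ b % 4 = 1 ∨ b % 4 = 2 ∨ b % 4 = 3 := by omega
  rcases ha with ha | ha | ha | ha <;> rcases hb with hb | hb | hb | hb <;>
    simp [letter, Dir.vec, ha, hb] <;> omega

lemma letter_vec_neg {a b : ℤ} : (letter a).vec = -(letter b).vec ↔ (a - b - 2) % 4 = 0 := by
  have ha : a % 4 = 0 ∨ a % 4 = 1 ∨ a % 4 = 2 ∨ a % 4 = 3 := by omega
  have hb : b % 4 = 0 ∨ b % 4 = 1 ∨ b % 4 = 2 ∨ b % 4 = 3 := by omega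
  rcases ha with ha | ha | ha | ha <;> rcases hb with hb | hb | hb | hb <;>
    simp [letter, Dir.vec, ha, hb] <;> omega

lemma letter_cross {a b : ℤ} (h : (letter b).vec ≠ -(letter a).vec) :
    |cross (letter a).vec (letter b).vec| ≤ 1 ∧
      (b - a - cross (letter a).vec (letter b).vec) % 4 = 0 := by
  rw [Ne, letter_vec_neg] at h
  have ha : a % 4 = 0 ∨ a % 4 = 1 ∨ a % 4 = 2 ∨ a % 4 = 3 := by omega
  have hb : b % 4 = 0 ∨ b % 4 = 1 ∨ b % 4 = 2 ∨ b % 4 = 3 := by omega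
  rcases ha with ha | ha | ha | ha <;> rcases hb with hb | hb | hb | hb <;>
    simp [letter, Dir.vec, cross, ha, hb] <;> omega

lemma exists_letter (c : Dir) : ∃ a : ℤ, letter a = c := by
  cases c
  · exact ⟨0, rfl⟩
  · exact ⟨1, rfl⟩
  · exact ⟨2, rfl⟩
  · exact ⟨3, rfl⟩

/-- Discrete integration. -/
lemma exists_int (f : ℤ → ℤ) : ∃ F : ℤ → ℤ, ∀ k, F (k + 1) = F k + f (k + 1) := by
  refine ⟨fun k => ∑ i ∈ Finset.Ioc 0 k, f i - ∑ i ∈ Finset.Ioc k 0, f i, fun k => ?_⟩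
  rcases le_or_gt 0 k with h | h
  · have h1 : Finset.Ioc k 0 = ∅ := Finset.Ioc_eq_empty (by omega)
    have h2 : Finset.Ioc (k + 1) 0 = ∅ := Finset.Ioc_eq_empty (by omega)
    have h3 : Finset.Ioc 0 (k + 1) = insert (k + 1) (Finset.Ioc 0 k) := by
      ext z
      simp only [Finset.mem_Ioc, Finset.mem_insert]
      omega
    show ∑ i ∈ Finset.Ioc 0 (k + 1), f i - ∑ i ∈ Finset.Ioc (k + 1) 0, f i =
      ∑ i ∈ Finset.Ioc 0 k, f i - ∑ i ∈ Finset.Ioc k 0, f i + f (k + 1)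
    rw [h1, h2, h3, Finset.sum_insert (by simp)]
    ring
  · have h1 : Finset.Ioc 0 k = ∅ := Finset.Ioc_eq_empty (by omega)
    have h2 : Finset.Ioc 0 (k + 1) = ∅ := Finset.Ioc_eq_empty (by omega)
    have h3 : Finset.Ioc k 0 = insert (k + 1) (Finset.Ioc (k + 1) 0) := by
      ext z
      simp only [Finset.mem_Ioc, Finset.mem_insert]
      omega
    show ∑ i ∈ Finset.Ioc 0 (k + 1), f i - ∑ i ∈ Finset.Ioc (k + 1) 0, f i =
      ∑ i ∈ Finset.Ioc 0 k, f i - ∑ i ∈ Finset.Ioc k 0, f i + f (k + 1)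
    rw [h1, h2, h3, Finset.sum_insert (by simp)]
    ring

lemma sum_int {f F : ℤ → ℤ} (h : ∀ k, F (k + 1) = F k + f (k + 1)) (a : ℤ) (n : ℕ) :
    ∑ i ∈ Finset.Ioc a (a + n), f i = F (a + n) - F a := by
  induction n with
  | zero => simp
  | succ n ih =>
    have h3 : Finset.Ioc a (a + (n + 1 : ℕ)) = insert (a + n + 1) (Finset.Ioc a (a + n)) := by
      ext z
      simp only [Finset.mem_Ioc, Finset.mem_insert]
      push_cast
      omega
    rw [h3, Finset.sum_insert (by simp), ih]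
    have := h (a + n)
    push_cast
    rw [← add_assoc]
    omega

/-- The angles of the edges of a path. -/
lemma exists_angle {M : SimpleGraph V} (hM : Board M) {o : V} {I : Set ℤ} {γ : ℤ → V}
    (h : IsPath M o I γ) : ∃ θ : ℤ → ℤ,
      (∀ k, θ (k + 1) = θ k + turn γ (k + 1)) ∧
      (∀ k ∈ edges I, (letter (θ k)).vec = γ (k + 1) - γ k) ∧
      (∀ k, k ∈ I → k + 1 ∈ I → k + 2 ∈ I → |θ (k + 1) - θ k| ≤ 1) := by
  have hdir : ∀ k ∈ edges I, ∃ a : ℤ, (letter a).vec = γ (k + 1) - γ k := by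
    intro k hk
    have h1 := (h.adj k hk.1 (k + 1) hk.2).2 (Or.inl rfl)
    obtain ⟨c, hc⟩ := hM _ _ h1
    obtain ⟨a, ha⟩ := exists_letter c
    exact ⟨a, by rw [ha, hc]; abel⟩
  have hne : ∀ k, k ∈ I → k + 1 ∈ I → k + 2 ∈ I → γ (k + 2) ≠ γ k := by
    intro k h1 _ h3 h4
    have := h.inj h3 h1 h4
    omega
  have hstep : ∀ k, k ∈ I → k + 1 ∈ I → k + 2 ∈ I → ∀ a b,
      (letter a).vec = γ (k + 1) - γ k → (letter b).vec = γ (k + 2) - γ (k + 1) →
      |turn γ (k + 1)| ≤ 1 ∧ (b - a - turn γ (k + 1)) % 4 = 0 := by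
    intro k h1 h2 h3 a b ha hb
    have h4 : turn γ (k + 1) = cross (letter a).vec (letter b).vec := by
      unfold turn
      rw [ha, hb, add_sub_cancel_right, add_assoc]
      norm_num
    rw [h4]
    apply letter_cross
    intro h5
    rw [ha, hb] at h5
    apply hne k h1 h2 h3
    have h6 : γ (k + 2) - γ k = (γ (k + 2) - γ (k + 1)) + (γ (k + 1) - γ k) := by abel
    rw [h5] at h6
    have h7 : γ (k + 2) - γ k = 0 := by rw [h6]; abel
    exact sub_eq_zero.1 h7
  obtain ⟨F, hF⟩ := exists_int (turn γ)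
  have hadj : ∀ c : ℤ, ∀ k, k ∈ I → k + 1 ∈ I → k + 2 ∈ I →
      |(F (k + 1) + c) - (F k + c)| ≤ 1 := by
    intro c k h1 h2 h3
    obtain ⟨a, ha⟩ := hdir k ⟨h1, h2⟩
    obtain ⟨b, hb⟩ := hdir (k + 1) ⟨h2, by rw [add_assoc]; exact h3⟩
    rw [add_assoc] at hb
    have h4 := (hstep k h1 h2 h3 a b ha (by simpa using hb)).1
    rw [hF k]
    have h5 : F k + turn γ (k + 1) + c - (F k + c) = turn γ (k + 1) := by ring
    rw [h5]
    exact h4
  by_cases hE : ∃ u, u ∈ edges I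
  · obtain ⟨u, hu⟩ := hE
    obtain ⟨κ, hκ⟩ := hdir u hu
    refine ⟨fun k => F k + (κ - F u), fun k => by show F (k + 1) + _ = F k + _ + _; rw [hF]; ring,
      ?_, fun k h1 h2 h3 => hadj _ k h1 h2 h3⟩
    have hup : ∀ k, k ∈ edges I → k + 1 ∈ edges I →
        ((letter (F k + (κ - F u))).vec = γ (k + 1) - γ k ↔
          (letter (F (k + 1) + (κ - F u))).vec = γ (k + 1 + 1) - γ (k + 1)) := by
      intro k h1 h2
      obtain ⟨a, ha⟩ := hdir k h1
      obtain ⟨b, hb⟩ := hdir (k + 1) h2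
      have h3 : k + 2 ∈ I := by
        have := h2.2
        rwa [add_assoc] at this
      have h4 : γ (k + 1 + 1) = γ (k + 2) := by rw [add_assoc]; norm_num
      have h5 := (hstep k h1.1 h1.2 h3 a b ha (by rw [← h4]; exact hb)).2
      rw [← ha, ← hb, letter_vec_eq, letter_vec_eq, hF k]
      omega
    intro k hk
    rcases le_total u k with huk | huk
    · refine int_up (P := fun z => (letter (F z + (κ - F u))).vec = γ (z + 1) - γ z) (a := u)
        (b := k) ?_ ?_ huk le_rfl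
      · show (letter (F u + (κ - F u))).vec = _
        rw [add_sub_cancel]
        exact hκ
      · intro z hz1 hz2 hz3
        refine (hup z ?_ ?_).1 hz3
        · exact ⟨h.interval.out hu.1 hk.1 ⟨hz1, hz2.le⟩,
            h.interval.out hu.2 hk.2 ⟨by omega, by omega⟩⟩
        · exact ⟨h.interval.out hu.1 hk.1 ⟨by omega, by omega⟩,
            h.interval.out hu.2 hk.2 ⟨by omega, by omega⟩⟩
    · have h1 := int_up (P := fun z => (letter (F (-z) + (κ - F u))).vec = γ (-z + 1) - γ (-z))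
        (a := -u) (b := -k) ?_ ?_ (k := -k) (by omega) le_rfl
      · simpa using h1
      · show (letter (F (- -u) + (κ - F u))).vec = _
        rw [neg_neg, add_sub_cancel]
        exact hκ
      · intro z hz1 hz2 hz3
        have h2 := (hup (-(z + 1)) ?_ ?_).2
        · apply h2
          have h3 : -(z + 1) + 1 = -z := by ring
          rw [h3]
          exact hz3
        · exact ⟨h.interval.out hk.1 hu.1 ⟨by omega, by omega⟩,
            h.interval.out hk.2 hu.2 ⟨by omega, by omega⟩⟩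
        · exact ⟨h.interval.out hk.1 hu.1 ⟨by omega, by omega⟩,
            h.interval.out hk.2 hu.2 ⟨by omega, by omega⟩⟩
  · exact ⟨fun k => F k + 0, fun k => by show F (k + 1) + 0 = F k + 0 + _; rw [hF]; ring,
      fun k hk => absurd ⟨k, hk⟩ hE, hadj 0⟩

/-- The robot in the maze and the robot on the path. -/
lemma step_tst {M : SimpleGraph V} {o : V} {I : Set ℤ} {γ : ℤ → V} (h : IsPath M o I γ)
    {θ : ℤ → ℤ} (hθ : ∀ k ∈ edges I, (letter (θ k)).vec = γ (k + 1) - γ k) {x : ℤ} (hx : x ∈ I)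
    (c : ℤ) : step M (γ x) (letter c) = γ (tst I θ c x) := by
  have hfw : x ∈ edges I → (γ x + (letter c).vec = γ (x + 1) ↔ (θ x - c) % 4 = 0) := by
    intro hE
    rw [← letter_vec_eq, hθ x hE]
    constructor
    · intro h1
      rw [← h1]
      abel
    · intro h1
      rw [← h1]
      abel
  have hbw : x - 1 ∈ edges I → (γ x + (letter c).vec = γ (x - 1) ↔
      (θ (x - 1) - c - 2) % 4 = 0) := by
    intro hE
    rw [← letter_vec_neg, hθ (x - 1) hE, sub_add_cancel]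
    constructor
    · intro h1
      rw [← h1]
      abel
    · intro h1
      have h2 : (letter c).vec = -(γ x - γ (x - 1)) := by rw [h1]; abel
      rw [h2]
      abel
  unfold step
  split_ifs with h1
  · have h2 : M.Reachable o (γ x + (letter c).vec) :=
      ((h.comp _).2 ⟨x, hx, rfl⟩).trans h1.reachable
    obtain ⟨j, hj, hj'⟩ := (h.comp _).1 h2
    rw [← hj'] at h1
    rcases (h.adj x hx j hj).1 h1 with h3 | h3
    · subst h3
      have hE : x ∈ edges I := ⟨hx, hj⟩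
      have h4 : tst I θ c x = x + 1 := by
        unfold tst
        rw [if_pos ⟨hE, (hfw hE).1 hj'.symm⟩]
      rw [h4, hj']
    · have hjx : j = x - 1 := by omega
      subst hjx
      have hE : x - 1 ∈ edges I := ⟨hj, by rw [sub_add_cancel]; exact hx⟩
      have h5 : ¬ (x ∈ edges I ∧ (θ x - c) % 4 = 0) := by
        rintro ⟨h6, h7⟩
        have h8 := (hfw h6).2 h7
        rw [← hj'] at h8
        have := h.inj hj h6.2 h8
        omega
      have h4 : tst I θ c x = x - 1 := by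
        unfold tst
        rw [if_neg h5, if_pos ⟨hE, (hbw hE).1 hj'.symm⟩]
      rw [h4, hj']
  · have h2 : ¬ (x ∈ edges I ∧ (θ x - c) % 4 = 0) := by
      rintro ⟨h3, h4⟩
      apply h1
      rw [(hfw h3).2 h4]
      exact (h.adj x hx (x + 1) h3.2).2 (Or.inl rfl)
    have h3 : ¬ (x - 1 ∈ edges I ∧ (θ (x - 1) - c - 2) % 4 = 0) := by
      rintro ⟨h3, h4⟩
      apply h1
      rw [(hbw h3).2 h4]
      exact (h.adj x hx (x - 1) h3.1).2 (Or.inr (by ring))
    unfold tst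
    rw [if_neg h2, if_neg h3]

lemma pos_run {M : SimpleGraph V} {o : V} {I : Set ℤ} {γ : ℤ → V} (h : IsPath M o I γ)
    {θ : ℤ → ℤ} (hθ : ∀ k ∈ edges I, (letter (θ k)).vec = γ (k + 1) - γ k) (a : ℕ → ℤ) (n : ℕ) :
    run (tst I θ) (word a n) 0 ∈ I ∧
      pos M o (fun n => letter (a n)) n = γ (run (tst I θ) (word a n) 0) := by
  induction n with
  | zero => exact ⟨h.zero_mem, h.start.symm⟩
  | succ n ih =>
    rw [word_succ, run_append]
    refine ⟨tst_mem ih.1, ?_⟩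
    show step M (pos M o _ n) (letter (a n)) = γ (tst I θ (a n) (run (tst I θ) (word a n) 0))
    rw [ih.2]
    exact step_tst h hθ ih.1 (a n)

lemma alternates_of_alt {I : Set ℤ} {γ : ℤ → V} {θ : ℤ → ℤ}
    (hθ : ∀ k, θ (k + 1) = θ k + turn γ (k + 1)) {n K m : ℕ} (h : Alt (win I n) θ K m) :
    Alternates I γ n K m := by
  obtain ⟨s, f, h1, h2, h3⟩ := h
  refine ⟨s, f, h1, fun i hi => ?_, fun i hi => ?_⟩
  · obtain ⟨h4, h5, h6⟩ := h2 i hi
    exact ⟨h4.1, h4.2, h5, h6⟩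
  · obtain ⟨h4, h5⟩ := h3 i hi
    refine ⟨h4, ?_⟩
    obtain ⟨k, hk⟩ : ∃ k : ℕ, f (i + 1) = f i + k := ⟨(f (i + 1) - f i).toNat, by omega⟩
    rw [hk, sum_int hθ, ← hk]
    exact h5

lemma tst_cut {I : Set ℤ} {θ : ℤ → ℤ} {t c x : ℤ} (hx : x ∈ upTo I t) (hxt : x ≠ t) :
    tst (upTo I t) θ c x = tst I θ c x := by
  obtain ⟨h1, h2, h3⟩ := hx
  have e1 : x ∈ edges (upTo I t) ↔ x ∈ edges I := by
    constructor
    · exact fun h => ⟨h.1.1, h.2.1⟩
    · exact fun h => ⟨⟨h1, h2, h3⟩, h.2, by omega, by omega⟩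
  have e2 : x - 1 ∈ edges (upTo I t) ↔ x - 1 ∈ edges I := by
    constructor
    · exact fun h => ⟨h.1.1, h.2.1⟩
    · exact fun h => ⟨⟨h.1, by omega, by omega⟩, h.2, by omega, by omega⟩
  unfold tst
  rw [e1, e2]

lemma run_cut {I : Set ℤ} {θ : ℤ → ℤ} {t : ℤ} {a : ℕ → ℤ} (h0 : (0 : ℤ) ∈ upTo I t)
    (h : ∃ n, run (tst (upTo I t) θ) (word a n) 0 = t) :
    ∃ n, run (tst I θ) (word a n) 0 = t := by
  classical
  have hmem : ∀ n, run (tst (upTo I t) θ) (word a n) 0 ∈ upTo I t := by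
    intro n
    induction n with
    | zero => exact h0
    | succ n ih =>
      rw [word_succ, run_append]
      exact tst_mem ih
  have key : ∀ m, m ≤ Nat.find h →
      run (tst I θ) (word a m) 0 = run (tst (upTo I t) θ) (word a m) 0 := by
    intro m
    induction m with
    | zero => intro _; rfl
    | succ m ih =>
      intro hm
      rw [word_succ, run_append, run_append, ih (by omega)]
      exact (tst_cut (hmem m) (Nat.find_min h (by omega))).symm
  refine ⟨Nat.find h, ?_⟩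
  rw [key _ le_rfl]
  exact Nat.find_spec h

lemma upTo_ordConnected {I : Set ℤ} (hI : I.OrdConnected) (t : ℤ) : (upTo I t).OrdConnected := by
  refine ⟨fun x hx y hy z hz => ?_⟩
  rw [Set.mem_Icc] at hz
  obtain ⟨h1, h2, h3⟩ := hx
  obtain ⟨h4, h5, h6⟩ := hy
  exact ⟨hI.out h1 h4 hz, by omega, by omega⟩

/-- One algorithm solves all mazes on lattice paths with few large alternations of the turning. -/
theorem maze_solve : ∃ (A : ℕ → Dir) (φ : ℕ → ℕ), Monotone φ ∧
    Filter.Tendsto φ Filter.atTop Filter.atTop ∧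
    ∀ (M : SimpleGraph V) (o : V) (I : Set ℤ) (γ : ℤ → V) (t : ℤ), Board M → IsPath M o I γ →
      t ∈ I → (∃ᶠ n in Filter.atTop, ¬ Alternates (upTo I t) γ n (φ n) (φ n)) →
      Solves A M o (γ t) := by
  obtain ⟨a, φ, h1, h2, h3⟩ := line_solve
  refine ⟨fun n => letter (a n), φ, h1, h2, fun M o I γ t hM hP ht hfreq => ?_⟩
  obtain ⟨θ, hθ1, hθ2, hθ3⟩ := exists_angle hM hP
  have h0 : (0 : ℤ) ∈ upTo I t := ⟨hP.zero_mem, fun h => h, fun h => h⟩
  have ht' : t ∈ upTo I t := ⟨ht, fun _ => le_rfl, fun _ => le_rfl⟩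
  obtain ⟨n, hn⟩ := run_cut (θ := θ) (a := a) h0 (h3 (upTo I t) θ (upTo_ordConnected hP.interval t) h0
    (fun k g1 g2 g3 => hθ3 k g1.1 g2.1 g3.1)
    (hfreq.mono fun n hn h => hn (alternates_of_alt hθ1 h)) t ht')
  refine ⟨n, ?_⟩
  rw [(pos_run hP hθ2 a n).2, hn]

end Pool.Agent.BlindPath
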