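import Pool.Agent.BlindPath.Coarse

/-!
The robot on a two-way infinite lattice path. The path is given by the angles `θ x` of its edges
(in quarter turns, so the edge from `x` to `x + 1` points in the direction `θ x` mod 4).
-/

namespace Pool.Agent.BlindPath

/-- The effect of the letter `c` (a direction mod 4) on the robot at the vertex `x`. -/
def pst (θ : ℤ → ℤ) (c x : ℤ) : ℤ :=
  if (θ x - c) % 4 = 0 then x + 1 else if (θ (x - 1) - c - 2) % 4 = 0 then x - 1 else x

/-- Paths whose angle does not make `N + 1` alternating changes of size `D`, and which tends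
upward on both sides. -/
structure Phys (D : ℤ) (N : ℕ) (θ : ℤ → ℤ) : Prop where
  adj : ∀ k, |θ (k + 1) - θ k| ≤ 1
  osc : ∀ x, ¬ Ch θ D Set.univ (N + 1) x
  ur : ∀ n a, ∃ k, n < k ∧ a ≤ θ k
  ul : ∀ n a, ∃ k, k < n ∧ a ≤ θ k

variable {θ : ℤ → ℤ}

lemma pst_low (θ : ℤ → ℤ) : Low (pst θ) := by
  intro c x
  unfold pst
  split_ifs <;> omega

lemma pst_le (θ : ℤ → ℤ) (c x : ℤ) : pst θ c x ≤ x + 1 := by
  unfold pst
  split_ifs <;> omega

lemma pst_mono (θ : ℤ → ℤ) (c : ℤ) {x y : ℤ} (h : y ≤ x) : pst θ c y ≤ pst θ c x := by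
  rcases eq_or_lt_of_le h with h | h
  · rw [h]
  · rcases eq_or_lt_of_le (show y + 1 ≤ x by omega) with h' | h'
    · subst h'
      unfold pst
      have : y + 1 - 1 = y := by ring
      rw [this]
      split_ifs <;> omega
    · have h1 := pst_le θ c y
      have h2 := pst_low θ c x
      omega

lemma pst_barrier {c b : ℤ} (hb : (θ (b - 1) - c - 2) % 4 ≠ 0) {x : ℤ} (hx : b ≤ x) :
    b ≤ pst θ c x := by
  rcases eq_or_lt_of_le hx with h | h
  · subst h
    unfold pst
    rw [if_neg hb]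
    split_ifs <;> omega
  · have := pst_low θ c x
    omega

/-- The letters of a stage. -/
def Lets (f : Stage) (p : ℤ → Prop) : Prop := ∀ (T : ℕ) (c : ℤ), c ∈ f T → p c

lemma lets_lt1 {c : ℤ} {p : ℤ → Prop} (h : p c) : Lets (lt1 c) p := by
  intro T d hd
  simp only [lt1, List.mem_singleton] at hd
  rwa [hd]

lemma lets_hp {c : ℤ} {p : ℤ → Prop} (h : p c) : Lets (hp c) p := by
  intro T d hd
  simp only [hp, List.mem_replicate] at hd
  rw [hd.2]
  exact h

lemma lets_sq {f g : Stage} {p : ℤ → Prop} (hf : Lets f p) (hg : Lets g p) :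
    Lets (sq f g) p := by
  intro T d hd
  simp only [sq, List.mem_append] at hd
  rcases hd with hd | hd
  · exact hf _ _ hd
  · exact hg _ _ hd

lemma lets_rep {f : Stage} {p : ℤ → Prop} (hf : Lets f p) (n : ℕ) : Lets (rep f n) p := by
  induction n with
  | zero =>
    intro T d hd
    simp [rep] at hd
  | succ n ih => exact lets_sq hf ih

lemma trip_barrier {st : ℤ → ℤ → ℤ} {f : Stage} {p : ℤ → Prop} {b : ℤ} (hf : Lets f p)
    (h : ∀ c, p c → ∀ x, b ≤ x → b ≤ st c x) : Trip st f (fun x => b ≤ x) (fun x => b ≤ x) := by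
  intro T x G _ hx
  right
  exact run_barrier (fun c hc => h c (hf T c hc)) hx

lemma run_rep_c {c z : ℤ} (hz : (θ (z - 1) - c) % 4 = 0) (n : ℕ) {x : ℤ}
    (h : ∀ y, x ≤ y → y < z → (θ y - c) % 4 = 0) :
    min z (x + n) ≤ run (pst θ) (List.replicate n c) x := by
  induction n generalizing x with
  | zero => simp
  | succ n ih =>
    rcases le_or_gt z x with hx | hx
    · refine (min_le_left _ _).trans (run_barrier ?_ hx)
      intro d hd y hy
      rw [List.mem_replicate] at hd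
      rw [hd.2]
      exact pst_barrier (by omega) hy
    · rw [List.replicate_succ, run_cons]
      have h1 : pst θ c x = x + 1 := by
        unfold pst
        rw [if_pos (h x le_rfl hx)]
      rw [h1]
      have h2 := ih (x := x + 1) (fun k hk hk' => h k (by omega) hk')
      push_cast
      have h3 : x + 1 + (n : ℤ) = x + (n + 1) := by ring
      rwa [h3] at h2

/-- A run in the direction of the letter is passed completely (or the goal is reached). -/
lemma trip_hp {c z : ℤ} (hz : (θ (z - 1) - c) % 4 = 0) :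
    Trip (pst θ) (hp c) (fun x => ∀ y, x ≤ y → y < z → (θ y - c) % 4 = 0) (fun x => z ≤ x) := by
  intro T x G hG hx
  have h1 := run_rep_c hz T hx
  rcases le_total z (x + T) with h2 | h2
  · right
    rw [min_eq_left h2] at h1
    exact h1
  · left
    rw [min_eq_right h2] at h1
    exact Reach.full (by unfold hp; omega)

/-- One round of the pushes in the direction `v`. -/
def rnd (v : ℤ) : Stage := sq (lt1 v) (sq (hp 0) (sq (lt1 v) (sq (hp 2) (lt1 v))))

/-- A push in the direction `v`. -/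
def vrun (v : ℤ) : Stage := sq (lt1 v) (fun T => rep (rnd v) T T)

lemma lets_rnd {v : ℤ} {p : ℤ → Prop} (hv : p v) (h0 : p 0) (h2 : p 2) : Lets (rnd v) p :=
  lets_sq (lets_lt1 hv) (lets_sq (lets_hp h0) (lets_sq (lets_lt1 hv)
    (lets_sq (lets_hp h2) (lets_lt1 hv))))

lemma lets_vrun {v : ℤ} {p : ℤ → Prop} (hv : p v) (h0 : p 0) (h2 : p 2) : Lets (vrun v) p := by
  refine lets_sq (lets_lt1 hv) ?_
  intro T c hc
  exact lets_rep (lets_rnd hv h0 h2) T T c hc

/-- The letters used in a push in the direction `v`. -/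
def Ok (v c : ℤ) : Prop := c % 2 = 0 ∨ c = v

lemma ok_barrier {v b : ℤ} (hv : v % 2 = 1) (hb : (θ (b - 1) - v) % 4 = 0) :
    ∀ c, Ok v c → ∀ x, b ≤ x → b ≤ pst θ c x := by
  intro c hc x hx
  apply pst_barrier _ hx
  rcases hc with hc | hc <;> omega

/-- The first edge from `x` on which is vertical. -/
lemma next_odd {x w : ℤ} (hw : θ w % 2 = 1) (hx : x ≤ w) :
    ∃ u, x ≤ u ∧ u ≤ w ∧ θ u % 2 = 1 ∧ ∀ y, x ≤ y → y < u → θ y % 2 = 0 := by
  rcases Int.emod_two_eq_zero_or_one (θ x) with h | h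
  · obtain ⟨t, h1, h2, h3, h4⟩ := first_change (P := fun s => θ s % 2 = 0) h
      (show ¬ θ w % 2 = 0 by omega) hx
    exact ⟨t + 1, by omega, by omega, by omega, fun y hy hy' => h3 y hy (by omega)⟩
  · exact ⟨x, le_rfl, hx, h, fun y hy hy' => by omega⟩

/-- Horizontal runs have constant angle. -/
lemma const_even (hadj : ∀ k, |θ (k + 1) - θ k| ≤ 1) {a z : ℤ}
    (h : ∀ y, a ≤ y → y < z → θ y % 2 = 0) : ∀ y, a ≤ y → y < z → θ y = θ a := by
  intro y hy hy'
  refine int_up (P := fun k => θ k = θ a) (b := y) rfl ?_ hy le_rfl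
  intro k h1 h2 h3
  have h4 := h k h1 (by omega)
  have h5 := h (k + 1) (by omega) (by omega)
  have h6 := hadj k
  rw [abs_le] at h6
  omega

lemma trip_rnd_at (hadj : ∀ k, |θ (k + 1) - θ k| ≤ 1) {v b a' : ℤ} (hv : v % 2 = 1)
    (hb : (θ (b - 1) - v) % 4 = 0)
    (hclear : ∀ u, b ≤ u → u < a' → θ u % 2 = 1 → (θ u - v) % 4 = 0)
    (ha' : (θ (a' - 1) - v) % 4 = 0) {x0 : ℤ} (hx0 : b ≤ x0) (hx0' : x0 < a') :
    Trip (pst θ) (rnd v) (fun x => x = x0) (fun x => b ≤ x ∧ x0 + 1 ≤ x) := by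
  obtain ⟨u, hu1, hu2, hu3, hu4⟩ := next_odd (θ := θ) (x := x0) (w := a' - 1) (by omega)
    (by omega)
  have huv : (θ u - v) % 4 = 0 := hclear u (by omega) (by omega) hu3
  have hbar : ∀ c, Ok v c → ∀ x, u + 1 ≤ x → u + 1 ≤ pst θ c x :=
    ok_barrier hv (by rw [add_sub_cancel_right]; exact huv)
  -- the letter `v` passes the edge `u`
  have hcross : ∀ x, u ≤ x → u + 1 ≤ pst θ v x := by
    intro x hx
    rcases eq_or_lt_of_le hx with h | h
    · subst h
      unfold pst
      rw [if_pos huv]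
    · exact hbar v (Or.inr rfl) x h
  have ok0 : Ok v 0 := Or.inl (by norm_num)
  have ok2 : Ok v 2 := Or.inl (by norm_num)
  have okv : Ok v v := Or.inr rfl
  have T1 : ∀ {f : Stage}, Lets f (Ok v) →
      Trip (pst θ) f (fun x => u + 1 ≤ x) (fun x => u + 1 ≤ x) :=
    fun hf => trip_barrier hf hbar
  have hlow := pst_low θ
  have key : Trip (pst θ) (rnd v) (fun x => x = x0) (fun x => u + 1 ≤ x) := by
    rcases eq_or_lt_of_le hu1 with h | h
    · -- the robot is at the edge `u`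
      refine Trip.sq hlow (Q := fun x => u + 1 ≤ x) (trip_lt1 ?_)
        (T1 (lets_sq (lets_hp ok0) (lets_sq (lets_lt1 okv) (lets_sq (lets_hp ok2)
          (lets_lt1 okv)))))
      intro x hx
      rw [hx]
      exact hcross x0 h.ge
    · have he : θ x0 % 2 = 0 := hu4 x0 le_rfl h
      have hc := const_even hadj hu4
      have hfirst : Trip (pst θ) (lt1 v) (fun x => x = x0) (fun x => x = x0) := by
        apply trip_lt1
        intro x hx
        rw [hx]
        unfold pst
        rw [if_neg (by omega), if_neg]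
        intro hbad
        rcases eq_or_lt_of_le hx0 with h' | h'
        · rw [← h'] at hbad
          omega
        · have := hclear (x0 - 1) (by omega) (by omega) (by omega)
          omega
      rcases (by omega : θ x0 % 4 = 0 ∨ θ x0 % 4 = 2) with h4 | h4
      · refine Trip.sq hlow hfirst (Trip.sq hlow (Q := fun x => u ≤ x) ?_
          (Trip.sq hlow (Q := fun x => u + 1 ≤ x) (trip_lt1 hcross)
            (T1 (lets_sq (lets_hp ok2) (lets_lt1 okv)))))
        have h5 : θ (u - 1) = θ x0 := hc (u - 1) (by omega) (by omega)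
        refine (trip_hp (θ := θ) (c := 0) (z := u) (by omega)).weak ?_ (fun _ h => h)
        intro x hx y hy hy'
        rw [hx] at hy
        rw [hc y hy hy']
        omega
      · let P : ℤ → Prop := fun x => b ≤ x ∧ x ≤ x0 ∧ ∀ t, x ≤ t → t < u → θ t = θ x0
        have hP0 : P x0 := ⟨hx0, le_rfl, hc⟩
        have h5 : θ (u - 1) = θ x0 := hc (u - 1) (by omega) (by omega)
        refine Trip.sq hlow hfirst (Trip.sq hlow (Q := P) ?_ (Trip.sq hlow (Q := P) ?_
          (Trip.sq hlow (Q := fun x => u ≤ x) ?_ (trip_lt1 hcross))))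
        · intro T x G _ hx
          right
          have hpres : ∀ n : ℕ, ∀ x, P x → P (run (pst θ) (List.replicate n 0) x) := by
            intro n
            induction n with
            | zero => intro x hx; simpa using hx
            | succ n ih =>
              intro x hx
              rw [List.replicate_succ, run_cons]
              apply ih
              obtain ⟨p1, p2, p3⟩ := hx
              have p4 := p3 x le_rfl (by omega)
              unfold pst
              rw [if_neg (by omega)]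
              split_ifs with hb'
              · have hne : b ≠ x := by
                  intro h'
                  rw [← h'] at hb'
                  omega
                refine ⟨by omega, by omega, fun t ht ht' => ?_⟩
                rcases eq_or_lt_of_le ht with h' | h'
                · rw [← h']
                  have h6 := hadj (x - 1)
                  rw [sub_add_cancel, abs_le] at h6
                  omega
                · exact p3 t (by omega) ht'
              · exact ⟨p1, p2, p3⟩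
          unfold hp
          rw [hx]
          exact hpres T x0 hP0
        · apply trip_lt1
          intro x hx
          have hx' := hx
          obtain ⟨p1, p2, p3⟩ := hx
          have p4 := p3 x le_rfl (by omega)
          have : pst θ v x = x := by
            unfold pst
            rw [if_neg (by omega), if_neg]
            intro hbad
            rcases eq_or_lt_of_le p1 with h' | h'
            · rw [← h'] at hbad
              omega
            · have := hclear (x - 1) (by omega) (by omega) (by omega)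
              omega
          rw [this]
          exact hx'
        · refine (trip_hp (θ := θ) (c := 2) (z := u) (by omega)).weak ?_ (fun _ h => h)
          intro x hx y hy hy'
          rw [hx.2.2 y hy hy']
          omega
  exact key.weak (fun _ h => h) (fun x hx => ⟨by omega, by omega⟩)

lemma trip_rnd (hadj : ∀ k, |θ (k + 1) - θ k| ≤ 1) {v b a' : ℤ} (hv : v % 2 = 1)
    (hb : (θ (b - 1) - v) % 4 = 0)
    (hclear : ∀ u, b ≤ u → u < a' → θ u % 2 = 1 → (θ u - v) % 4 = 0)
    (ha' : (θ (a' - 1) - v) % 4 = 0) (hba : b ≤ a') (t : ℤ) :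
    Trip (pst θ) (rnd v) (fun x => b ≤ x ∧ (a' ≤ x ∨ t ≤ x))
      (fun x => b ≤ x ∧ (a' ≤ x ∨ t + 1 ≤ x)) := by
  intro T x G hG hx
  rcases le_or_gt a' x with h | h
  · rcases trip_barrier (st := pst θ) (lets_rnd (v := v) (p := Ok v) (Or.inr rfl)
      (Or.inl (by norm_num)) (Or.inl (by norm_num))) (ok_barrier hv ha') T x G hG h with h' | h'
    · exact Or.inl h'
    · exact Or.inr ⟨by omega, Or.inl h'⟩
  · rcases trip_rnd_at hadj hv hb hclear ha' hx.1 h T x G hG rfl with h' | h'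
    · exact Or.inl h'
    · exact Or.inr ⟨h'.1, Or.inr (by omega)⟩

lemma trip_rep (hadj : ∀ k, |θ (k + 1) - θ k| ≤ 1) {v b a' : ℤ} (hv : v % 2 = 1)
    (hb : (θ (b - 1) - v) % 4 = 0)
    (hclear : ∀ u, b ≤ u → u < a' → θ u % 2 = 1 → (θ u - v) % 4 = 0)
    (ha' : (θ (a' - 1) - v) % 4 = 0) (hba : b ≤ a') (n : ℕ) : ∀ (t : ℤ),
    Trip (pst θ) (rep (rnd v) n) (fun x => b ≤ x ∧ (a' ≤ x ∨ t ≤ x))
      (fun x => b ≤ x ∧ (a' ≤ x ∨ t + n ≤ x)) := by
  induction n with
  | zero =>
    intro t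
    refine (trip_nil (st := pst θ) (P := fun x => b ≤ x ∧ (a' ≤ x ∨ t ≤ x))).weak
      (fun _ h => h) (fun x hx => ⟨hx.1, ?_⟩)
    rw [Nat.cast_zero, add_zero]
    exact hx.2
  | succ n ih =>
    intro t
    refine Trip.sq (pst_low θ) (trip_rnd hadj hv hb hclear ha' hba t)
      ((ih (t + 1)).weak (fun _ h => h) ?_)
    intro x hx
    refine ⟨hx.1, ?_⟩
    push_cast
    rcases hx.2 with h | h
    · exact Or.inl h
    · exact Or.inr (by omega)

/-- A push in the direction `v` leads to the next cap (or to the goal). -/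
lemma trip_vrun (hadj : ∀ k, |θ (k + 1) - θ k| ≤ 1) {v z a' : ℤ} (hv : v % 2 = 1)
    (hz : (θ z - v) % 4 = 0)
    (hclear : ∀ u, z ≤ u → u < a' → θ u % 2 = 1 → (θ u - v) % 4 = 0)
    (ha' : (θ (a' - 1) - v) % 4 = 0) (hba : z < a') :
    Trip (pst θ) (vrun v) (fun x => z ≤ x) (fun x => a' ≤ x) := by
  refine Trip.sq (pst_low θ) (Q := fun x => z + 1 ≤ x) (trip_lt1 ?_) ?_
  · intro x hx
    rcases eq_or_lt_of_le hx with h | h
    · subst h
      unfold pst
      rw [if_pos hz]
    · exact ok_barrier hv (b := z + 1) (by rw [add_sub_cancel_right]; exact hz) v (Or.inr rfl)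
        x h
  · intro T x G hG hx
    rcases trip_rep hadj hv (b := z + 1) (by rw [add_sub_cancel_right]; exact hz)
      (fun u hu => hclear u (by omega)) ha' (by omega) T x T x G hG ⟨hx, Or.inr le_rfl⟩
      with h | h
    · exact Or.inl h
    · rcases h.2 with h' | h'
      · exact Or.inr h'
      · left
        exact Reach.full (by show G ≤ run (pst θ) (rep (rnd v) T T) x; omega)

/-- The physical word belonging to a word of the level of the caps. -/
def pexp : List ℤ → ℤ → Stage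
  | [], _ => fun _ => []
  | c :: cs, y => sq (sq (hp (2 * c + 2)) (vrun (2 * y + 1))) (pexp cs (y + 1))

/-- The facts on the sequence of caps which the expansion of words uses. -/
structure PDer (θ e B : ℤ → ℤ) : Prop where
  mono : StrictMono e
  typ : ∀ j, (θ (e j - 1) - 1 - 2 * j) % 4 = 0
  lab : ∀ j, θ (e j) = 2 * B j + 2
  cap : ∀ j, ∃ z, e j < z ∧ z < e (j + 1) ∧ (∀ y, e j ≤ y → y < z → θ y = θ (e j)) ∧
    (θ z - 2 * j - 3) % 4 = 0 ∧
    ∀ u, z ≤ u → u < e (j + 1) → θ u % 2 = 1 → (θ u - 2 * j - 3) % 4 = 0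

lemma trip_step (hadj : ∀ k, |θ (k + 1) - θ k| ≤ 1) {e B : ℤ → ℤ} (h : PDer θ e B)
    {c y J : ℤ} (hJ : (J - y - 1) % 2 = 0) :
    Trip (pst θ) (sq (hp (2 * c + 2)) (vrun (2 * y + 1))) (fun x => e J ≤ x)
      (fun x => e (cst B c J) ≤ x) := by
  unfold cst
  split_ifs with hc
  · obtain ⟨z, hz1, hz2, hz3, hz4, hz5⟩ := h.cap J
    have hlab := h.lab J
    refine Trip.sq (pst_low θ) (Q := fun x => z ≤ x) ?_ ?_
    · refine (trip_hp (θ := θ) (c := 2 * c + 2) (z := z) ?_).weak ?_ (fun _ h => h)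
      · rw [hz3 (z - 1) (by omega) (by omega)]
        omega
      · intro x hx y' hy hy'
        rw [hz3 y' (le_trans hx hy) hy']
        omega
    · refine trip_vrun hadj (by omega) (by omega) (fun u hu hu' hodd => ?_) ?_ hz2
      · have := hz5 u hu hu' hodd
        omega
      · have := h.typ (J + 1)
        omega
  · refine trip_barrier (p := Ok (2 * y + 1)) (lets_sq (lets_hp (Or.inl (by omega)))
      (lets_vrun (Or.inr rfl) (Or.inl (by norm_num)) (Or.inl (by norm_num))))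
      (ok_barrier (by omega) (b := e (J - 1)) ?_) |>.weak ?_ (fun _ h => h)
    · have := h.typ (J - 1)
      omega
    · intro x hx
      exact (h.mono (by omega : J - 1 < J)).le.trans hx

lemma pexp_reach (hadj : ∀ k, |θ (k + 1) - θ k| ≤ 1) {e B : ℤ → ℤ} (h : PDer θ e B)
    (J' G : ℤ) (cs : List ℤ) :
    ∀ (y x J : ℤ) (T : ℕ), (J - y - 1) % 2 = 0 → e J ≤ x → G - x ≤ T →
      Reach (cst B) cs J J' → Reach (pst θ) (pexp cs y T) x (min (e J') G) := by
  induction cs with
  | nil =>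
    intro y x J T _ hJ _ hr
    obtain ⟨u, hu, hu2⟩ := hr
    rw [List.prefix_nil] at hu
    subst hu
    apply Reach.zero
    exact (min_le_left _ _).trans ((h.mono.monotone (by simpa using hu2)).trans hJ)
  | cons c cs ih =>
    intro y x J T hy hJ hG hr
    rcases reach_cons hr with hr | hr
    · apply Reach.zero
      exact (min_le_left _ _).trans ((h.mono.monotone hr).trans hJ)
    show Reach (pst θ) (sq (hp (2 * c + 2)) (vrun (2 * y + 1)) T ++
      pexp cs (y + 1) (T + (sq (hp (2 * c + 2)) (vrun (2 * y + 1)) T).length)) x _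
    rcases trip_step hadj h (c := c) hy T x G hG hJ with h1 | h1
    · apply Reach.left
      exact h1.mono (min_le_right _ _)
    · apply Reach.right
      have h2 := cst_parity B c J
      have h3 := run_ge (pst_low θ) (sq (hp (2 * c + 2)) (vrun (2 * y + 1)) T) x
      apply ih (y + 1) _ (cst B c J) _ (by omega) h1 _ hr
      push_cast
      omega

/-! ### The sequence of caps -/

lemma cross_up {f : ℤ → ℤ} (hadj : ∀ k, |f (k + 1) - f k| ≤ 1) {k k' v : ℤ} (hk : f k < v)
    (hk' : v < f k') (hkk : k ≤ k') :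
    ∃ a z, k < a ∧ a < z ∧ z ≤ k' ∧ f (a - 1) = v - 1 ∧ f z = v + 1 ∧
      ∀ y, a ≤ y → y < z → f y = v := by
  obtain ⟨t, h1, h2, h3, h4⟩ := first_change (P := fun s => f s ≤ v) (show f k ≤ v by omega)
    (show ¬ f k' ≤ v by omega) hkk
  have hb : ∃ b, ∀ s, (k ≤ s ∧ s ≤ t ∧ f s < v) → s ≤ b := ⟨t, fun s hs => hs.2.1⟩
  have he : ∃ s, (k ≤ s ∧ s ≤ t ∧ f s < v) := ⟨k, le_rfl, h1, hk⟩
  obtain ⟨s, ⟨s1, s2, s3⟩, hmax⟩ := Int.exists_greatest_of_bdd hb he
  have hval : ∀ y, s + 1 ≤ y → y < t + 1 → f y = v := by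
    intro y hy hy'
    have h5 := h3 y (by omega) (by omega)
    by_contra hne
    have := hmax y ⟨by omega, by omega, by omega⟩
    omega
  have h6 := hadj t
  have h7 := h3 t h1 le_rfl
  rw [abs_le] at h6
  have hst : s < t := by
    rcases eq_or_lt_of_le s2 with h | h
    · subst h
      omega
    · exact h
  have h8 := hval t (by omega) (by omega)
  have h9 := hval (s + 1) le_rfl (by omega)
  have h10 := hadj s
  rw [abs_le] at h10
  refine ⟨s + 1, t + 1, by omega, by omega, by omega, ?_, by omega, hval⟩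
  rw [add_sub_cancel_right]
  omega

lemma cross_down {f : ℤ → ℤ} (hadj : ∀ k, |f (k + 1) - f k| ≤ 1) {k k' v : ℤ} (hk : v < f k)
    (hk' : f k' < v) (hkk : k ≤ k') :
    ∃ a z, k < a ∧ a < z ∧ z ≤ k' ∧ f (a - 1) = v + 1 ∧ f z = v - 1 ∧
      ∀ y, a ≤ y → y < z → f y = v := by
  obtain ⟨a, z, h1, h2, h3, h4, h5, h6⟩ := cross_up (f := fun s => -f s) (v := -v)
    (k := k) (k' := k') (fun k => by
      have := hadj k
      rw [abs_le] at this ⊢
      omega) (by show -f k < -v; omega) (by show -v < -f k'; omega) hkk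
  refine ⟨a, z, h1, h2, h3, by omega, by omega, fun y hy hy' => ?_⟩
  have := h6 y hy hy'
  omega

/-- Start vertices of the caps. -/
def CapS (θ : ℤ → ℤ) : Set ℤ := {a | θ (a - 1) % 2 = 1 ∧ θ a % 2 = 0 ∧
  ∃ z, a < z ∧ (∀ y, a ≤ y → y < z → θ y = θ a) ∧ θ z % 2 = 1 ∧ θ z ≠ θ (a - 1)}

lemma mem_capS {a : ℤ} : a ∈ CapS θ ↔ θ (a - 1) % 2 = 1 ∧ θ a % 2 = 0 ∧
  ∃ z, a < z ∧ (∀ y, a ≤ y → y < z → θ y = θ a) ∧ θ z % 2 = 1 ∧ θ z ≠ θ (a - 1) := Iff.rfl

lemma capS_up {a z v : ℤ} (hv : v % 2 = 0) (h1 : a < z) (h2 : θ (a - 1) = v - 1)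
    (h3 : θ z = v + 1) (h4 : ∀ y, a ≤ y → y < z → θ y = v) : a ∈ CapS θ ∧ θ a = v := by
  have h5 := h4 a le_rfl h1
  refine ⟨mem_capS.2 ⟨by omega, by omega, z, h1, fun y hy hy' => ?_, by omega, by omega⟩, h5⟩
  rw [h4 y hy hy', h5]

lemma capS_down {a z v : ℤ} (hv : v % 2 = 0) (h1 : a < z) (h2 : θ (a - 1) = v + 1)
    (h3 : θ z = v - 1) (h4 : ∀ y, a ≤ y → y < z → θ y = v) : a ∈ CapS θ ∧ θ a = v := by
  have h5 := h4 a le_rfl h1
  refine ⟨mem_capS.2 ⟨by omega, by omega, z, h1, fun y hy hy' => ?_, by omega, by omega⟩, h5⟩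
  rw [h4 y hy hy', h5]

/-- Between two consecutive caps all vertical edges have the same angle. -/
lemma capS_clear (hadj : ∀ k, |θ (k + 1) - θ k| ≤ 1) {e : ℤ → ℤ} (he : StrictMono e)
    (hS : ∀ s, s ∈ CapS θ ↔ ∃ j, e j = s) {j z : ℤ} (hz : e j < z) (hzo : θ z % 2 = 1) :
    ∀ u, z ≤ u → u < e (j + 1) → θ u % 2 = 1 → θ u = θ z := by
  intro w hw1 hw2 hw3
  by_contra hne
  obtain ⟨t, h1, h2, h3, h4⟩ := first_change (P := fun s => θ s % 2 = 1 → θ s = θ z)
    (fun _ => rfl) (show ¬ (θ w % 2 = 1 → θ w = θ z) from fun h => hne (h hw3)) hw1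
  have h5 : θ (t + 1) % 2 = 1 ∧ θ (t + 1) ≠ θ z := by
    by_contra h
    exact h4 (fun h' => by
      by_contra h''
      exact h ⟨h', h''⟩)
  have hb : ∃ b, ∀ s, (z ≤ s ∧ s ≤ t ∧ θ s % 2 = 1) → s ≤ b := ⟨t, fun s hs => hs.2.1⟩
  obtain ⟨s, ⟨s1, s2, s3⟩, hmax⟩ := Int.exists_greatest_of_bdd hb ⟨z, le_rfl, h1, hzo⟩
  have hsz : θ s = θ z := h3 s s1 s2 s3
  have hst : s ≠ t := by
    intro h
    have h6 := hadj t
    rw [abs_le] at h6
    rw [h] at hsz s3
    omega
  have heven : ∀ y, s + 1 ≤ y → y < t + 1 → θ y % 2 = 0 := by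
    intro y hy hy'
    by_contra h
    have := hmax y ⟨by omega, by omega, by omega⟩
    omega
  have hmem : s + 1 ∈ CapS θ := by
    refine mem_capS.2 ⟨?_, heven _ le_rfl (by omega), t + 1, by omega,
      const_even hadj heven, h5.1, ?_⟩
    · rw [add_sub_cancel_right]; exact s3
    · rw [add_sub_cancel_right, hsz]; exact h5.2
  obtain ⟨i, hi⟩ := (hS _).1 hmem
  have h6 : j < i := he.lt_iff_lt.1 (by omega)
  have h7 : i < j + 1 := he.lt_iff_lt.1 (by omega)
  omega

lemma ch_caps {e B : ℤ → ℤ} (h : PDer θ e B) {d : ℤ} {n : ℕ} {j : ℤ}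
    (hc : Ch B d Set.univ n j) : Ch θ (2 * d) Set.univ n (e j) := by
  induction hc with
  | zero x _ => exact Ch.zero _ (Set.mem_univ _)
  | up n x y hn _ hxy _ hA ih =>
    have h1 := h.lab x
    have h2 := h.lab y
    exact Ch.up n (e x) (e y) hn ih (h.mono.monotone hxy) (Set.mem_univ _) (by omega)
  | down n x y hn _ hxy _ hA ih =>
    have h1 := h.lab x
    have h2 := h.lab y
    exact Ch.down n (e x) (e y) hn ih (h.mono.monotone hxy) (Set.mem_univ _) (by omega)

theorem Phys.derived {d : ℤ} {N : ℕ} (h : Phys (2 * d) N θ) :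
    ∃ e B : ℤ → ℤ, PDer θ e B ∧ Env d N 0 B := by
  have hadj := h.adj
  have U : ∀ n a, ∃ s, n < s ∧ s ∈ CapS θ ∧ a ≤ θ s := by
    intro n a
    obtain ⟨k, h1, h2⟩ := h.ur n (2 * |a| + 2 * |θ n| + 3)
    have ha := le_abs_self a
    have ht := le_abs_self (θ n)
    have ha0 := abs_nonneg a
    have ht0 := abs_nonneg (θ n)
    obtain ⟨s, z, h5, h6, h7, h8, h9, h10⟩ := cross_up hadj (k := n) (k' := k)
      (v := 2 * |a| + 2 * |θ n| + 2) (by omega) (by omega) h1.le
    obtain ⟨h11, h12⟩ := capS_up (by omega) h6 h8 h9 h10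
    exact ⟨s, by omega, h11, by omega⟩
  have D : ∀ n a, ∃ s, s < n ∧ s ∈ CapS θ ∧ a ≤ θ s := by
    intro n a
    obtain ⟨k, h1, h2⟩ := h.ul n (2 * |a| + 2 * |θ n| + 3)
    have ha := le_abs_self a
    have ht := le_abs_self (θ n)
    have ha0 := abs_nonneg a
    have ht0 := abs_nonneg (θ n)
    obtain ⟨s, z, h5, h6, h7, h8, h9, h10⟩ := cross_down hadj (k := k) (k' := n)
      (v := 2 * |a| + 2 * |θ n| + 2) (by omega) (by omega) h1.le
    obtain ⟨h11, h12⟩ := capS_down (by omega) h6 h8 h9 h10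
    exact ⟨s, by omega, h11, by omega⟩
  -- what we know at a cap, for an arbitrary enumeration
  have facts : ∀ (e : ℤ → ℤ), StrictMono e → (∀ s, s ∈ CapS θ ↔ ∃ j, e j = s) → ∀ j,
      ∃ z, e j < z ∧ z < e (j + 1) ∧ (∀ y, e j ≤ y → y < z → θ y = θ (e j)) ∧
        θ (e (j + 1) - 1) = θ z ∧ θ z % 2 = 1 ∧ θ z ≠ θ (e j - 1) ∧ θ (e j - 1) % 2 = 1 ∧
        θ (e j) % 2 = 0 ∧ |θ (e j) - θ (e j - 1)| ≤ 1 ∧ |θ z - θ (e j)| ≤ 1 ∧
        ∀ u, z ≤ u → u < e (j + 1) → θ u % 2 = 1 → θ u = θ z := by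
    intro e he hS j
    obtain ⟨c1, c2, z, c3, c4, c5, c6⟩ := mem_capS.1 ((hS (e j)).2 ⟨j, rfl⟩)
    obtain ⟨d1, d2, _⟩ := mem_capS.1 ((hS (e (j + 1))).2 ⟨j + 1, rfl⟩)
    have hlt : e j < e (j + 1) := he (by omega)
    have hz : z < e (j + 1) := by
      by_contra hge
      have := c4 (e (j + 1) - 1) (by omega) (by omega)
      omega
    have hcl := capS_clear hadj he hS c3 c5
    refine ⟨z, c3, hz, c4, hcl _ (by omega) (by omega) d1, c5, c6, c1, c2, ?_, ?_, hcl⟩
    · have := hadj (e j - 1)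
      rwa [sub_add_cancel] at this
    · have h1 := hadj (z - 1)
      rw [sub_add_cancel, c4 (z - 1) (by omega) (by omega)] at h1
      exact h1
  obtain ⟨e0, he0, hS0⟩ := exists_enum (CapS θ)
    (fun n => by obtain ⟨a, h1, h2, _⟩ := U n 0; exact ⟨a, h2, h1⟩)
    (fun n => by obtain ⟨a, h1, h2, _⟩ := D n 0; exact ⟨a, h2, h1⟩)
  obtain ⟨e, he, hS, hpar⟩ : ∃ e : ℤ → ℤ, StrictMono e ∧ (∀ s, s ∈ CapS θ ↔ ∃ j, e j = s) ∧
      (θ (e 0 - 1) - 1) % 4 = 0 := by
    obtain ⟨z, _, _, _, f4, f5, f6, f7, f8, f9, f10, _⟩ := facts e0 he0 hS0 0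
    rw [abs_le] at f9 f10
    by_cases hp : (θ (e0 0 - 1) - 1) % 4 = 0
    · exact ⟨e0, he0, hS0, hp⟩
    · refine ⟨fun j => e0 (j + 1), fun a b hab => he0 (by omega), fun s => ?_, ?_⟩
      · rw [hS0]
        constructor
        · rintro ⟨j, hj⟩
          exact ⟨j - 1, by simpa using hj⟩
        · rintro ⟨j, hj⟩
          exact ⟨j + 1, hj⟩
      · show (θ (e0 (0 + 1) - 1) - 1) % 4 = 0
        omega
  have F := facts e he hS
  have htyp : ∀ j, (θ (e j - 1) - 1 - 2 * j) % 4 = 0 := by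
    intro j
    induction j using Int.induction_on with
    | zero => simpa using hpar
    | succ i ih =>
      obtain ⟨z, _, _, _, f4, f5, f6, f7, f8, f9, f10, _⟩ := F i
      rw [abs_le] at f9 f10
      omega
    | pred i ih =>
      obtain ⟨z, _, _, _, f4, f5, f6, f7, f8, f9, f10, _⟩ := F (-(i : ℤ) - 1)
      have h4 : -(i : ℤ) - 1 + 1 = -i := by ring
      rw [h4] at f4
      rw [abs_le] at f9 f10
      omega
  have hlab : ∀ j, θ (e j) = 2 * (θ (e j) / 2 - 1) + 2 := by
    intro j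
    obtain ⟨z, _, _, _, f4, f5, f6, f7, f8, f9, f10, _⟩ := F j
    omega
  have hP : PDer θ e (fun j => θ (e j) / 2 - 1) := by
    refine ⟨he, htyp, hlab, ?_⟩
    intro j
    obtain ⟨z, f1, f2, f3, f4, f5, f6, f7, f8, f9, f10, f11⟩ := F j
    have h1 := htyp j
    rw [abs_le] at f9 f10
    refine ⟨z, f1, f2, f3, by omega, fun u hu hu' ho => ?_⟩
    have := f11 u hu hu' ho
    omega
  refine ⟨e, fun j => θ (e j) / 2 - 1, hP, ?_, ?_, ?_, ?_, ?_⟩
  · intro j
    obtain ⟨z, _, _, _, f4, f5, f6, f7, f8, f9, f10, _⟩ := F j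
    obtain ⟨z', _, _, _, g4, g5, g6, g7, g8, g9, g10, _⟩ := F (j + 1)
    rw [abs_le] at f9 f10 g9 g10 ⊢
    omega
  · intro j hne
    obtain ⟨z, _, _, _, f4, f5, f6, f7, f8, f9, f10, _⟩ := F j
    obtain ⟨z', _, _, _, g4, g5, g6, g7, g8, g9, g10, _⟩ := F (j + 1)
    have h1 := htyp j
    rw [abs_le] at f9 f10 g9 g10
    omega
  · intro x hx
    exact h.osc _ (ch_caps hP hx)
  · intro n a
    obtain ⟨s, h1, h2, h3⟩ := U (e n) (2 * a + 2)
    obtain ⟨j, hj⟩ := (hS s).1 h2
    refine ⟨j, he.lt_iff_lt.1 (by omega), ?_⟩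
    rw [hj]
    omega
  · intro n a
    obtain ⟨s, h1, h2, h3⟩ := D (e n) (2 * a + 2)
    obtain ⟨j, hj⟩ := (hS s).1 h2
    refine ⟨j, he.lt_iff_lt.1 (by omega), ?_⟩
    rw [hj]
    omega

/-- A word which moves the robot forward by at least `Q`, on all two-way infinite paths whose
angle makes at most `N` alternating changes of size `2 (d + 1)`. -/
theorem pmover (d N Q : ℕ) : ∃ w : List ℤ, ∀ θ, Phys (2 * ((d : ℤ) + 1)) N θ →
    ∀ p, Reach (pst θ) w p (p + Q) := by
  obtain ⟨w', hw'⟩ := mover d N 0 0 (Q + 2)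
  refine ⟨pexp w' 1 Q, fun θ hθ p => ?_⟩
  obtain ⟨e, B, hD, hB⟩ := hθ.derived
  obtain ⟨J, hJ0, hJ1, hJ2⟩ := exists_floor_even hD.mono p
  have h1 := hw' B hB J (by omega)
  have h2 := pexp_reach hθ.adj hD (J + ((Q + 2 : ℕ) : ℤ)) (p + Q) w' 1 p J Q (by omega) hJ1
    (by omega) h1
  apply h2.mono
  apply le_min _ le_rfl
  have h3 := strictMono_add hD.mono (J + 2) Q
  have h4 : J + ((Q + 2 : ℕ) : ℤ) = J + 2 + Q := by push_cast; ring
  rw [h4]
  omega

end Pool.Agent.BlindPath
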