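import Mathlib

/-!
Words acting on integer positions: general facts.
-/

namespace Pool.Agent.BlindPath

/-- Position after executing the word `w` from `x`; `st c x` is the effect of the letter `c`. -/
def run (st : ℤ → ℤ → ℤ) (w : List ℤ) (x : ℤ) : ℤ := w.foldl (fun y c => st c y) x

/-- Some initial segment of `w` brings the robot from `x` to a position `≥ G`. -/
def Reach (st : ℤ → ℤ → ℤ) (w : List ℤ) (x G : ℤ) : Prop :=
  ∃ w' : List ℤ, w' <+: w ∧ G ≤ run st w' x

/-- Steps never lose more than one. -/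
def Low (st : ℤ → ℤ → ℤ) : Prop := ∀ c x, x - 1 ≤ st c x

variable {st : ℤ → ℤ → ℤ}

@[simp] lemma run_nil (x : ℤ) : run st [] x = x := rfl

@[simp] lemma run_cons (c : ℤ) (w : List ℤ) (x : ℤ) :
    run st (c :: w) x = run st w (st c x) := rfl

lemma run_append (w w' : List ℤ) (x : ℤ) :
    run st (w ++ w') x = run st w' (run st w x) := by
  simp [run, List.foldl_append]

lemma Reach.zero {w : List ℤ} {x G : ℤ} (h : G ≤ x) : Reach st w x G :=
  ⟨[], List.nil_prefix, by simpa using h⟩

lemma Reach.full {w : List ℤ} {x G : ℤ} (h : G ≤ run st w x) : Reach st w x G :=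
  ⟨w, List.prefix_refl _, h⟩

lemma Reach.mono {w : List ℤ} {x G G' : ℤ} (h : G' ≤ G) (hr : Reach st w x G) :
    Reach st w x G' := by
  obtain ⟨w', h1, h2⟩ := hr
  exact ⟨w', h1, h.trans h2⟩

lemma Reach.left {w w' : List ℤ} {x G : ℤ} (hr : Reach st w x G) :
    Reach st (w ++ w') x G := by
  obtain ⟨u, h1, h2⟩ := hr
  exact ⟨u, h1.trans (List.prefix_append _ _), h2⟩

lemma Reach.right {w w' : List ℤ} {x G : ℤ} (hr : Reach st w' (run st w x) G) :
    Reach st (w ++ w') x G := by
  obtain ⟨u, h1, h2⟩ := hr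
  refine ⟨w ++ u, ?_, by rwa [run_append]⟩
  exact (List.prefix_append_right_inj w).2 h1

lemma reach_cons {c : ℤ} {w : List ℤ} {x G : ℤ} (hr : Reach st (c :: w) x G) :
    G ≤ x ∨ Reach st w (st c x) G := by
  obtain ⟨u, h1, h2⟩ := hr
  cases u with
  | nil => left; simpa using h2
  | cons a u =>
    right
    rw [List.cons_prefix_cons] at h1
    obtain ⟨rfl, h1⟩ := h1
    exact ⟨u, h1, h2⟩

lemma Reach.cons {c : ℤ} {w : List ℤ} {x G : ℤ} (hr : Reach st w (st c x) G) :
    Reach st (c :: w) x G := by
  obtain ⟨u, h1, h2⟩ := hr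
  exact ⟨c :: u, by rw [List.cons_prefix_cons]; exact ⟨rfl, h1⟩, h2⟩

lemma run_ge (hl : Low st) (w : List ℤ) (x : ℤ) : x - w.length ≤ run st w x := by
  induction w generalizing x with
  | nil => simp
  | cons c w ih =>
    have h1 := ih (st c x)
    have h2 := hl c x
    simp only [run_cons, List.length_cons, Nat.cast_add, Nat.cast_one]
    omega

/-- A barrier: if `b` is kept by all letters of `w` then it is kept by `w`. -/
lemma run_barrier {b : ℤ} {w : List ℤ} (h : ∀ c ∈ w, ∀ x, b ≤ x → b ≤ st c x) {x : ℤ}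
    (hx : b ≤ x) : b ≤ run st w x := by
  induction w generalizing x with
  | nil => simpa using hx
  | cons c w ih =>
    rw [run_cons]
    exact ih (fun c' hc' => h c' (List.mem_cons_of_mem _ hc')) (h c (by simp) x hx)

/-- A stage is a word depending on a bound for the distance to the goal. -/
abbrev Stage := ℕ → List ℤ

/-- First `f`, then `g` with the bound increased by the length of `f`. -/
def sq (f g : Stage) : Stage := fun T => f T ++ g (T + (f T).length)

/-- Hoare triple: from `P` the stage `f` either reaches the goal or ends in `Q`. -/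
def Trip (st : ℤ → ℤ → ℤ) (f : Stage) (P Q : ℤ → Prop) : Prop :=
  ∀ (T : ℕ) (x G : ℤ), G - x ≤ T → P x → Reach st (f T) x G ∨ Q (run st (f T) x)

lemma Trip.sq (hl : Low st) {f g : Stage} {P Q R : ℤ → Prop} (h1 : Trip st f P Q)
    (h2 : Trip st g Q R) : Trip st (sq f g) P R := by
  intro T x G hG hP
  rcases h1 T x G hG hP with h | h
  · left; exact h.left
  · have hlen := run_ge hl (f T) x
    rcases h2 (T + (f T).length) (run st (f T) x) G (by push_cast; omega) h with h' | h'
    · left; exact h'.right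
    · right
      unfold BlindPath.sq
      rw [run_append]
      exact h'

lemma Trip.weak {f : Stage} {P Q P' Q' : ℤ → Prop} (h : Trip st f P Q)
    (hP : ∀ x, P' x → P x) (hQ : ∀ x, Q x → Q' x) : Trip st f P' Q' := by
  intro T x G hG hx
  rcases h T x G hG (hP x hx) with h' | h'
  · exact Or.inl h'
  · exact Or.inr (hQ _ h')

/-- One letter. -/
def lt1 (c : ℤ) : Stage := fun _ => [c]

/-- The letter `c` repeated `T` times. -/
def hp (c : ℤ) : Stage := fun T => List.replicate T c

/-- The stage `f` repeated `n` times. -/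
def rep (f : Stage) : ℕ → Stage
  | 0 => fun _ => []
  | n + 1 => sq f (rep f n)

lemma trip_lt1 {c : ℤ} {P Q : ℤ → Prop} (h : ∀ x, P x → Q (st c x)) :
    Trip st (lt1 c) P Q := by
  intro T x G _ hP
  right
  simpa [lt1] using h x hP

lemma trip_nil {P : ℤ → Prop} : Trip st (fun _ => []) P P := by
  intro T x G _ hP
  right
  simpa using hP

end Pool.Agent.BlindPath
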