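import Pool.Agent.BlindPath.Run
import Pool.Agent.BlindPath.Enum

/-!
The coarse model (a robot on cells with labels mod 2) and words for monotone label sequences.
-/

namespace Pool.Agent.BlindPath

/-- The effect of the letter `c` on the robot in the cell `k` with label `A k` mod 2. -/
def cst (A : ℤ → ℤ) (c k : ℤ) : ℤ := if (A k - c) % 2 = 0 then k + 1 else k - 1

lemma cst_low (A : ℤ → ℤ) : Low (cst A) := by
  intro c x
  unfold cst
  split_ifs <;> omega

lemma cst_parity (A : ℤ → ℤ) (c x : ℤ) : (cst A c x - x - 1) % 2 = 0 := by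
  unfold cst
  split_ifs <;> omega

lemma run_parity (A : ℤ → ℤ) (w : List ℤ) (x : ℤ) :
    (run (cst A) w x - x - w.length) % 2 = 0 := by
  induction w generalizing x with
  | nil => simp
  | cons c w ih =>
    have h1 := ih (cst A c x)
    have h2 := cst_parity A c x
    simp only [run_cons, List.length_cons, Nat.cast_add, Nat.cast_one]
    omega

/-- A cell whose label is the letter is not passed backward. -/
lemma cst_barrier {A : ℤ → ℤ} {b y : ℤ} (hb : (A b - y) % 2 = 0) {x : ℤ} (hx : b ≤ x) :
    b ≤ cst A y x := by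
  unfold cst
  rcases eq_or_lt_of_le hx with h | h
  · subst h
    rw [if_pos hb]
    omega
  · split_ifs <;> omega

lemma run_rep_barrier {A : ℤ → ℤ} {b y : ℤ} (hb : (A b - y) % 2 = 0) (n : ℕ) {x : ℤ}
    (hx : b ≤ x) : b ≤ run (cst A) (List.replicate n y) x := by
  apply run_barrier _ hx
  intro c hc x hx
  rw [List.mem_replicate] at hc
  rw [hc.2]
  exact cst_barrier hb hx

/-- Pushing forward. -/
lemma run_rep_forward {A : ℤ → ℤ} {b y : ℤ} (n : ℕ) {x : ℤ}
    (h : ∀ k, x ≤ k → k ≤ b → (A k - y) % 2 = 0) (hb : (A b - y) % 2 = 0) :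
    min b (x + n) ≤ run (cst A) (List.replicate n y) x := by
  induction n generalizing x with
  | zero => simp
  | succ n ih =>
    rcases le_or_gt b x with hx | hx
    · exact (min_le_left _ _).trans (run_rep_barrier hb _ hx)
    · rw [List.replicate_succ, run_cons]
      have h1 : cst A y x = x + 1 := by
        unfold cst
        rw [if_pos (h x le_rfl hx.le)]
      rw [h1]
      have h2 := ih (x := x + 1) (fun k hk hk' => h k (by omega) hk')
      push_cast
      have h3 : x + 1 + (n : ℤ) = x + (n + 1) := by ring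
      rwa [h3] at h2

/-- The word of the cell level belonging to a word `cs` of the level of the changes. -/
def cexp (τ : ℤ) : List ℤ → ℤ → ℤ → ℕ → List ℤ
  | [], _, _, _ => []
  | c :: cs, x, π, T =>
    if (π - c - τ - 1) % 2 = 0 then
      List.replicate T (x + 1) ++ cexp τ cs (x + 1) (π + T) (T + T)
    else
      [x] ++ (List.replicate (T + 1) (x + 1) ++
        cexp τ cs (x + 1) (π + 1 + (T + 1)) (T + 1 + (T + 1)))

/-! ### A universal word for finitely many cells with arbitrary labels -/

/-- Cells `1, 2, ...` with labels `lam`; from a position `≤ 0` the robot always moves up. -/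
def ust (lam : ℤ → ℤ) (c i : ℤ) : ℤ :=
  if i ≤ 0 then i + 1 else if (lam i - c) % 2 = 0 then i + 1 else i - 1

lemma ust_congr {N : ℕ} {lam lam' : ℤ → ℤ}
    (h : ∀ i : ℤ, 1 ≤ i → i ≤ N → (lam i - lam' i) % 2 = 0) (U : List ℤ) :
    ∀ s, Reach (ust lam) U s (N + 1) → Reach (ust lam') U s (N + 1) := by
  induction U with
  | nil =>
    intro s hs
    obtain ⟨u, hu, hu2⟩ := hs
    rw [List.prefix_nil] at hu
    subst hu
    exact Reach.zero (by simpa using hu2)
  | cons c U ih =>
    intro s hs
    rcases reach_cons hs with h1 | h1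
    · exact Reach.zero h1
    · rcases le_or_gt (N + 1 : ℤ) s with h2 | h2
      · exact Reach.zero h2
      · apply Reach.cons
        have : ust lam' c s = ust lam c s := by
          unfold ust
          by_cases h3 : s ≤ 0
          · rw [if_pos h3, if_pos h3]
          · rw [if_neg h3, if_neg h3]
            have h4 := h s (by omega) (by omega)
            by_cases h5 : (lam s - c) % 2 = 0
            · rw [if_pos h5, if_pos (by omega)]
            · rw [if_neg h5, if_neg (by omega)]
        rw [this]
        exact ih _ h1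

lemma ust_path (N : ℕ) (lam : ℤ → ℤ) (n : ℕ) : ∀ s : ℤ, (N : ℤ) + 1 - s ≤ n →
    ∃ u, Reach (ust lam) u s (N + 1) := by
  induction n with
  | zero =>
    intro s hs
    exact ⟨[], Reach.zero (by push_cast at hs; omega)⟩
  | succ n ih =>
    intro s hs
    obtain ⟨u, hu⟩ := ih (s + 1) (by push_cast at hs; omega)
    refine ⟨lam s :: u, Reach.cons ?_⟩
    have : ust lam (lam s) s = s + 1 := by
      unfold ust
      split_ifs with h1 h2
      · rfl
      · rfl
      · exact absurd (by rw [sub_self]; rfl) h2
    rwa [this]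

/-- The labelling given by a function on `Fin N`. -/
def labOf {N : ℕ} (f : Fin N → Fin 2) (i : ℤ) : ℤ :=
  if h : 1 ≤ i ∧ i ≤ N then ((f ⟨(i - 1).toNat, by omega⟩ : Fin 2) : ℕ) else 0

/-- A universal word for `N` cells with arbitrary labels. -/
theorem univ_word (N : ℕ) : ∃ U : List ℤ, ∀ (lam : ℤ → ℤ) (s : ℤ), 0 ≤ s → s ≤ N →
    Reach (ust lam) U s (N + 1) := by
  classical
  have key : ∀ S : Finset ((Fin N → Fin 2) × Fin (N + 1)), ∃ U : List ℤ, ∀ p ∈ S,
      Reach (ust (labOf p.1)) U ((p.2 : ℕ) : ℤ) (N + 1) := by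
    intro S
    induction S using Finset.induction_on with
    | empty => exact ⟨[], fun p hp => absurd hp (Finset.notMem_empty _)⟩
    | insert p S _ ih =>
      obtain ⟨U, hU⟩ := ih
      obtain ⟨u, hu⟩ := ust_path N (labOf p.1)
        ((N : ℤ) + 1 - run (ust (labOf p.1)) U ((p.2 : ℕ) : ℤ)).toNat
        (run (ust (labOf p.1)) U ((p.2 : ℕ) : ℤ)) (Int.self_le_toNat _)
      refine ⟨U ++ u, fun q hq => ?_⟩
      rw [Finset.mem_insert] at hq
      rcases hq with rfl | hq
      · exact hu.right
      · exact (hU q hq).left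
  obtain ⟨U, hU⟩ := key Finset.univ
  refine ⟨U, fun lam s h0 hN => ?_⟩
  let f : Fin N → Fin 2 := fun i => ⟨(lam ((i : ℕ) + 1) % 2).toNat, by
    have h1 := Int.emod_two_eq_zero_or_one (lam ((i : ℕ) + 1))
    omega⟩
  have h1 := hU (f, ⟨s.toNat, by omega⟩) (Finset.mem_univ _)
  have h2 : ((s.toNat : ℕ) : ℤ) = s := Int.toNat_of_nonneg h0
  simp only [h2] at h1
  refine ust_congr (fun i hi hi' => ?_) U s h1
  unfold labOf
  rw [dif_pos ⟨hi, hi'⟩]
  have h3 : (((i - 1).toNat : ℕ) : ℤ) + 1 = i := by omega
  simp only [f, h3]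
  have h4 := Int.emod_two_eq_zero_or_one (lam i)
  omega

/-! ### Monotone label sequences with few values -/

/-- Label sequences which increase from `0` to at most `N`. -/
structure Stair (N : ℕ) (r : ℤ → ℤ) : Prop where
  lo : ∀ k, 0 ≤ r k
  hi : ∀ k, r k ≤ N
  mono : ∀ k, r k ≤ r (k + 1)
  step : ∀ k, r (k + 1) ≤ r k + 1

lemma Stair.le {N : ℕ} {r : ℤ → ℤ} (h : Stair N r) {k k' : ℤ} (hk : k ≤ k') : r k ≤ r k' :=
  int_up (P := fun s => r k ≤ r s) (a := k) (b := k') le_rfl
    (fun s _ _ hs => hs.trans (h.mono s)) hk le_rfl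

/-- Barrier: the letter `i - 1` keeps `i ≤ r (K + 1)`. -/
lemma Stair.barrier {N : ℕ} {r : ℤ → ℤ} (h : Stair N r) {i y : ℤ} (hy : (i - 1 - y) % 2 = 0)
    (n : ℕ) {K : ℤ} (hK : i ≤ r (K + 1)) :
    i ≤ r (run (cst r) (List.replicate n y) K + 1) := by
  induction n generalizing K with
  | zero => simpa using hK
  | succ n ih =>
    rw [List.replicate_succ, run_cons]
    apply ih
    unfold cst
    split_ifs with h1
    · exact hK.trans (h.mono _)
    · have h2 := h.step K
      rw [sub_add_cancel]
      omega

lemma Stair.forward {N : ℕ} {r : ℤ → ℤ} (h : Stair N r) {i y : ℤ} (hy : (i - y) % 2 = 0)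
    (n : ℕ) {K : ℤ} (hK : i ≤ r K) :
    i + 1 ≤ r (run (cst r) (List.replicate n y) K + 1) ∨
      K + n ≤ run (cst r) (List.replicate n y) K := by
  induction n generalizing K with
  | zero => right; simp
  | succ n ih =>
    rcases le_or_gt (i + 1) (r (K + 1)) with h1 | h1
    · left
      exact h.barrier (by omega) _ h1
    · rw [List.replicate_succ, run_cons]
      have h2 := h.mono K
      have h3 : cst r y K = K + 1 := by
        unfold cst
        rw [if_pos (by omega)]
      rw [h3]
      rcases ih (K := K + 1) (by omega) with h4 | h4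
      · left; exact h4
      · right
        push_cast
        omega

/-- The label of the cell `i` of the level of the changes. -/
noncomputable def jump (r : ℤ → ℤ) (i : ℤ) : ℤ := by
  classical
  exact if h : ∃ K, r K = i - 1 ∧ r (K + 1) = i then h.choose + 1 else 0

lemma Stair.jump_spec {N : ℕ} {r : ℤ → ℤ} (h : Stair N r) {i K c : ℤ} (hK : i ≤ r (K + 1))
    (hc : (jump r i - c) % 2 = 0) (hKc : (K - c) % 2 = 0) : i ≤ r K := by
  classical
  by_contra hlt
  have h1 := h.step K
  have hex : ∃ K, r K = i - 1 ∧ r (K + 1) = i := ⟨K, by omega, by omega⟩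
  have hj : jump r i = hex.choose + 1 := by
    unfold jump
    rw [dif_pos hex]
  obtain ⟨h2, h3⟩ := hex.choose_spec
  have h4 : hex.choose = K := by
    rcases lt_trichotomy hex.choose K with h5 | h5 | h5
    · have := h.le (show hex.choose + 1 ≤ K by omega)
      omega
    · exact h5
    · have := h.le (show K + 1 ≤ hex.choose by omega)
      omega
  rw [hj, h4] at hc
  omega

/-- One push. -/
lemma Stair.push {N : ℕ} {r : ℤ → ℤ} (h : Stair N r) {c x K i G : ℤ} {T : ℕ}
    (hK : (K - c) % 2 = 0) (hi : (i - x - 1) % 2 = 0) (hiK : i ≤ r (K + 1))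
    (hG : G - K ≤ T) :
    G ≤ run (cst r) (List.replicate T (x + 1)) K ∨
      ust (jump r) c i ≤ r (run (cst r) (List.replicate T (x + 1)) K + 1) := by
  have fw : i ≤ r K → G ≤ run (cst r) (List.replicate T (x + 1)) K ∨
      i + 1 ≤ r (run (cst r) (List.replicate T (x + 1)) K + 1) := by
    intro h1
    rcases h.forward (y := x + 1) (by omega) T h1 with h2 | h2
    · right; exact h2
    · left; omega
  unfold ust
  split_ifs with h1 h2
  · exact fw (h1.trans (h.lo K))
  · exact fw (h.jump_spec hiK h2 hK)
  · right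
    exact h.barrier (by omega) T (by omega)

lemma Stair.reach {N : ℕ} {r : ℤ → ℤ} (h : Stair N r) (G : ℤ) (cs : List ℤ) :
    ∀ (x π K i : ℤ) (T : ℕ), (K - π) % 2 = 0 → (i - x - 1) % 2 = 0 → i ≤ r (K + 1) →
      G - K ≤ T → Reach (ust (jump r)) cs i (N + 1) →
      Reach (cst r) (cexp (-1) cs x π T) K G := by
  induction cs with
  | nil =>
    intro x π K i T _ _ hiK _ hr
    obtain ⟨u, hu, hu2⟩ := hr
    rw [List.prefix_nil] at hu
    subst hu
    have h1 := h.hi (K + 1)
    rw [run_nil] at hu2
    omega
  | cons c cs ih =>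
    intro x π K i T hπ hi hiK hG hr
    rcases reach_cons hr with hr | hr
    · have h1 := h.hi (K + 1)
      omega
    have hi' : (ust (jump r) c i - (x + 1) - 1) % 2 = 0 := by
      unfold ust
      split_ifs <;> omega
    unfold cexp
    split_ifs with hp
    · rcases h.push (c := c) (K := K) (by omega) hi hiK hG with h1 | h1
      · apply Reach.left
        exact Reach.full h1
      · apply Reach.right
        have h2 := run_parity r (List.replicate T (x + 1)) K
        have h3 := run_ge (cst_low r) (List.replicate T (x + 1)) K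
        simp only [List.length_replicate] at h2 h3
        apply ih (x + 1) (π + T) _ (ust (jump r) c i) (T + T) (by omega) hi' h1
          (by push_cast; omega) hr
    · apply Reach.right
      have h0 : run (cst r) [x] K = cst r x K := rfl
      rw [h0]
      have hp0 := cst_parity r x K
      have hl0 := cst_low r x K
      have hb0 : i ≤ r (cst r x K + 1) := h.barrier (y := x) (by omega) 1 hiK
      rcases h.push (c := c) (K := cst r x K) (G := G) (T := T + 1) (by omega) hi hb0
        (by push_cast; omega) with h1 | h1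
      · apply Reach.left
        exact Reach.full h1
      · apply Reach.right
        have h2 := run_parity r (List.replicate (T + 1) (x + 1)) (cst r x K)
        have h3 := run_ge (cst_low r) (List.replicate (T + 1) (x + 1)) (cst r x K)
        simp only [List.length_replicate] at h2 h3
        push_cast at h2 h3
        apply ih (x + 1) (π + 1 + (T + 1)) _ (ust (jump r) c i) (T + 1 + (T + 1)) (by omega)
          hi' h1 (by push_cast; omega) hr

/-- The mover for monotone label sequences with values between `0` and `N`. -/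
theorem stair_mover (N : ℕ) (ρ : ℤ) (Q : ℕ) : ∃ w : List ℤ, ∀ r, Stair N r →
    ∀ K, (K - ρ) % 2 = 0 → Reach (cst r) w K (K + Q) := by
  obtain ⟨U, hU⟩ := univ_word N
  refine ⟨cexp (-1) U 1 ρ Q, fun r hr K hK => ?_⟩
  obtain ⟨i, hi1, hi2, hi3, hi4⟩ : ∃ i : ℤ, i % 2 = 0 ∧ 0 ≤ i ∧ i ≤ N ∧ i ≤ r (K + 1) := by
    have h1 := hr.lo (K + 1)
    have h2 := hr.hi (K + 1)
    rcases Int.emod_two_eq_zero_or_one (r (K + 1)) with h | h
    · exact ⟨r (K + 1), h, h1, h2, le_rfl⟩
    · exact ⟨r (K + 1) - 1, by omega, by omega, by omega, by omega⟩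
  exact hr.reach (K + Q) U 1 ρ K i Q hK (by omega) hi4 (by omega) (hU _ i hi2 hi3)

end Pool.Agent.BlindPath
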